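import Mathlib
import Pool.Agent.W474.Ver.Interior

/-!
The chain of isomorphisms relating the Koszul homology of the module `⊕ H⁰(ℙⁿ, 𝒪(β + m d))` and that
of its top local cohomology. This is `W474/Ver/Chain.lean` of the starting library with a twist `β`.
-/

set_option autoImplicit false

namespace Pool.Agent.N92.BT

open Finset
open Pool.Agent.W474.Ver (Lat Expo closed_of iso_trans iso_symm)
open Pool.Agent.H940R2 (CC res DS ZZ BB HH Lowers Good Ac Split IsoH sg DK dg DK_lowers DK_DK Conv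
  cone_ac DK_apply dg_mk DS_apply_mem DS_apply_notMem DS_mem_CC mk_ZZ ZZ_eq quot_equiv)

variable {K ι : Type*} [Field K] [Fintype ι] [LinearOrder ι] {n : ℕ} {d : ℤ} {ex : ι → Lat n}

/-- the cells of internal degree determined by the strand `t` -/
def Base (ι : Type*) (n : ℕ) (d : ℤ) (β : ℤ) (t : ℤ) : Set (Finset ι × Lat n) :=
  {x | ∑ a, x.2 a = (t - x.1.card) * d + β}

omit [Fintype ι] in
lemma base_step (h : Expo d ex) (β t : ℤ) {F : Finset ι} {u : Lat n} {b : ι}
    (hb : b ∉ F) : (F, u) ∈ Base ι n d β t ↔ (insert b F, u - ex b) ∈ Base ι n d β t := by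
  simp only [Base, Set.mem_ofPred_eq, Finset.card_insert_of_notMem hb, Pi.sub_apply,
    Finset.sum_sub_distrib, h.sum]
  push_cast
  constructor
  · intro e1
    rw [e1]; ring
  · intro e1
    linear_combination e1

/-- The region: the first `k` of the exponents are nonnegative, those from `k'` on are
negative. -/
def Rg (ι : Type*) (n : ℕ) (d β t : ℤ) (k k' : ℕ) : Set (Finset ι × Lat n) :=
  {x | x ∈ Base ι n d β t ∧ (∀ a : Fin (n + 1), a.val < k → 0 ≤ x.2 a) ∧
    (∀ a : Fin (n + 1), k' ≤ a.val → x.2 a < 0)}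

omit [Fintype ι] in
lemma Rg_conv (h : Expo d ex) (β t : ℤ) (k k' : ℕ) : Conv ex (Rg ι n d β t k k') := by
  intro G u b c hb hc hbc h1 h2
  obtain ⟨b1, x1, y1⟩ := h1
  obtain ⟨b2, x2, y2⟩ := h2
  have nb := h.nonneg b
  have nc := h.nonneg c
  refine ⟨(base_step h β t hb).mp b1, ?_, ?_⟩
  · intro a ha
    have := x2 a ha
    simp only [Pi.sub_apply] at this ⊢
    linarith [nc a]
  · intro a ha
    have := y1 a ha
    simp only [Pi.sub_apply] at this ⊢
    linarith [nb a]

variable (K)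

lemma split_flip (h : Expo d ex) (β t : ℤ) {k : ℕ} (hk : k < n + 1) :
    Split (DK K ex) (Rg ι n d β t k (k + 1)) (Rg ι n d β t (k + 1) (k + 1)) (Rg ι n d β t k k) where
  union := by
    ext x
    constructor
    · rintro ⟨hb, hx, hy⟩
      by_cases h0 : 0 ≤ x.2 ⟨k, hk⟩
      · left
        refine ⟨hb, ?_, hy⟩
        intro a ha
        rcases Nat.lt_succ_iff_lt_or_eq.mp ha with h1 | h1
        · exact hx a h1
        · have : a = ⟨k, hk⟩ := Fin.ext h1
          rw [this]; exact h0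
      · right
        refine ⟨hb, hx, ?_⟩
        intro a ha
        rcases Nat.lt_or_eq_of_le ha with h1 | h1
        · exact hy a h1
        · have : a = ⟨k, hk⟩ := Fin.ext h1.symm
          rw [this]; exact not_le.mp h0
    · rintro (⟨hb, hx, hy⟩ | ⟨hb, hx, hy⟩)
      · exact ⟨hb, fun a ha => hx a (by omega), hy⟩
      · exact ⟨hb, hx, fun a ha => hy a (by omega)⟩
  disj := by
    rw [Set.disjoint_left]
    rintro x ⟨_, hx, _⟩ ⟨_, _, hy⟩
    have h1 := hx ⟨k, hk⟩ (by simp)
    have h2 := hy ⟨k, hk⟩ (by simp)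
    exact absurd h1 (not_le.mpr h2)
  closed := by
    refine closed_of ?_
    intro G u b hb h2 h1
    have e1 := h1.2.1 ⟨k, hk⟩ (by simp)
    have e2 := h2.2.2 ⟨k, hk⟩ (by simp)
    simp only [Pi.sub_apply] at e1 e2
    linarith [h.nonneg b ⟨k, hk⟩]
  good := (Rg_conv h β t k (k + 1)).good

lemma mid_ac (h : Expo d ex) (β t : ℤ) {k : ℕ} (hk : k < n + 1) :
    Ac dg (DK K ex) (Rg ι n d β t k (k + 1)) := by
  obtain ⟨i, hi⟩ := h.vert ⟨k, hk⟩
  refine cone_ac _ i ?_
  intro F u hF
  have hx : ∀ a : Fin (n + 1), a.val ≠ k → ex i a = 0 := by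
    intro a ha
    apply hi
    intro h'
    exact ha (congrArg Fin.val h')
  simp only [Rg, Set.mem_ofPred_eq]
  rw [← base_step h β t hF]
  simp only [Pi.sub_apply]
  constructor
  · rintro ⟨e1, e2, e3⟩
    refine ⟨e1, ?_, ?_⟩
    · intro a ha; rw [hx a (by omega), sub_zero]; exact e2 a ha
    · intro a ha; rw [hx a (by omega), sub_zero]; exact e3 a ha
  · rintro ⟨e1, e2, e3⟩
    refine ⟨e1, ?_, ?_⟩
    · intro a ha; have := e2 a ha; rw [hx a (by omega), sub_zero] at this; exact this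
    · intro a ha; have := e3 a ha; rw [hx a (by omega), sub_zero] at this; exact this

/-- the flips -/
lemma flips (h : Expo d ex) (β t : ℤ) (k : ℕ) (hk : k ≤ n + 1) (j : ℕ) :
    IsoH dg (DK K ex) (Rg ι n d β t k k) j (Rg ι n d β t 0 0) (j + k) := by
  induction k generalizing j with
  | zero => exact ⟨LinearEquiv.refl _ _⟩
  | succ k ih =>
    have f0 := (split_flip K h β t (k := k) (by omega)).flip (DK_lowers _)
      (mid_ac K h β t (k := k) (by omega)) j
    have f1 := ih (by omega) (j + 1)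
    have e : j + 1 + k = j + (k + 1) := by omega
    rw [e] at f1
    exact iso_trans K (iso_symm K f0) f1

/-- the region of the section ring -/
def Sin (ι : Type*) (n : ℕ) (d β t : ℤ) : Set (Finset ι × Lat n) :=
  {x | x ∈ Base ι n d β t ∧ ∀ c, 0 ≤ x.2 c}

/-- the region of the top local cohomology -/
def Sout (ι : Type*) (n : ℕ) (d β t : ℤ) : Set (Finset ι × Lat n) :=
  {x | x ∈ Base ι n d β t ∧ ∀ c, x.2 c < 0}

lemma sin_eq (ι : Type*) (n : ℕ) (d β t : ℤ) : Sin ι n d β t = Rg ι n d β t (n + 1) (n + 1) := by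
  ext x
  constructor
  · rintro ⟨h1, h2⟩
    exact ⟨h1, fun a _ => h2 a, fun a ha => by omega⟩
  · rintro ⟨h1, h2, _⟩
    exact ⟨h1, fun a => h2 a a.2⟩

lemma sout_eq (ι : Type*) (n : ℕ) (d β t : ℤ) : Sout ι n d β t = Rg ι n d β t 0 0 := by
  ext x
  constructor
  · rintro ⟨h1, h2⟩
    exact ⟨h1, fun a ha => by omega, fun a _ => h2 a⟩
  · rintro ⟨h1, _, h2⟩
    exact ⟨h1, fun a => h2 a (Nat.zero_le _)⟩

/-- The duality isomorphism (combinatorial form). -/
theorem chain (h : Expo d ex) (β t : ℤ) (j : ℕ) :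
    IsoH dg (DK K ex) (Sin ι n d β t) j (Sout ι n d β t) (j + (n + 1)) := by
  rw [sin_eq, sout_eq]
  exact flips K h β t (n + 1) le_rfl j

end Pool.Agent.N92.BT
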