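import Pool.Agent.N92.BT.Tab

/-! # The Betti table and the Boij-Söderberg decomposition for `b = 1`, `d = 5` -/

set_option autoImplicit false

namespace Pool.Agent.N92.BT

open MvPolynomial Finset Module
open Pool.Agent.W474.Ver (Poly Sec Mon h0 mon bas kosz)
open Pool.Agent.N92.BS (secM chM dimQ betti IsDegSeq pureD LeD IsBS Unimodal deg_of entry_ge
  not_unimodal_of)

theorem Sec_neg {e : ℤ} (he : e < 0) {f : Poly 2} (hf : f ∈ Sec 2 e) : f = 0 := by
  ext u
  rw [coeff_zero]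
  by_contra hc
  have h := hf u hc
  have : (0 : ℤ) ≤ ∑ a, (u a : ℤ) := Finset.sum_nonneg fun a _ => Int.natCast_nonneg _
  omega

theorem chM_eq (p : ℕ) (m : ℤ) : chM 1 5 p m = chT 2 5 1 p m := by
  ext f
  change ((∀ F, f F ∈ secM 1 5 m) ∧ ∀ F, F.card ≠ p → f F = 0) ↔
    ((∀ F, f F ∈ Sec 2 (m * (5 : ℕ) + 1)) ∧ ∀ F, F.card ≠ p → f F = 0)
  rcases le_or_gt 0 m with hm | hm
  · rw [secM, if_pos hm, add_comm (1 : ℤ)]
  · rw [secM, if_neg (not_le.2 hm)]
    refine and_congr_left fun _ => forall_congr' fun F => ?_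
    rw [Submodule.mem_bot]
    constructor
    · intro h
      rw [h]
      exact Submodule.zero_mem _
    · intro h
      exact Sec_neg (by push_cast; omega) h

theorem betti_eq (i : ℕ) (j : ℤ) : betti 1 5 i j = kT 2 5 1 i (j - i) := by
  rw [betti, chM_eq, chM_eq]
  rfl

theorem chT_neg (p : ℕ) (m : ℤ) (hm : m < 0) : chT 2 5 1 p m = ⊥ := by
  rw [eq_bot_iff]
  rintro f ⟨h1, _⟩
  rw [Submodule.mem_bot]
  funext F
  exact Sec_neg (by push_cast; omega) (h1 F)

theorem kT_neg (p : ℕ) (q : ℤ) (hq : q < 0) : kT 2 5 1 p q = 0 := by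
  rw [kT, cyT, chT_neg p q hq, bot_inf_eq]
  exact Module.finrank_zero_of_subsingleton

theorem kT_0 (p : ℕ) : kT 2 5 1 p 0 = r0 p := by
  have h := kpq_add 2 5 1 p 0
  have h2 : bdT 2 5 1 p 0 = ⊥ := by
    rw [bdT, chT_neg _ _ (by norm_num), Submodule.map_bot]
  rw [h2, finrank_bot, add_zero] at h
  rw [h, ← k0_eq, k0]

theorem betti_table (i : ℕ) (j : ℤ) : betti 1 5 i j =
    if j = i then r0 i else if j = i + 1 then r1 i else if j = i + 2 then r2 i else 0 := by
  rw [betti_eq]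
  split_ifs with h0 h1 h2
  · rw [h0, sub_self, kT_0]
  · have e : j - i = 1 := by omega
    rw [e, kT_1]
  · have e : j - i = 2 := by omega
    rw [e, kT_2]
  · rcases lt_or_ge (j - i) 0 with h | h
    · exact kT_neg _ _ h
    · exact kT_ge _ _ (by omega)

/-- the degree sequences -/
def LA : List ℤ := [0, 1, 2, 4, 5, 6, 7, 8, 9, 10, 11, 12, 13, 14, 15, 16, 17, 19, 20]
def LB : List ℤ := [0, 1, 2, 4, 5, 6, 7, 8, 9, 10, 11, 12, 13, 14, 15, 16, 18, 19, 20]
def LC : List ℤ := [0, 1, 3, 4, 5, 6, 7, 8, 9, 10, 11, 12, 13, 14, 15, 16, 18, 19, 20]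

def D3 : Fin 3 → List ℤ := ![LA, LB, LC]
def a3 : Fin 3 → ℚ := ![61737175019520000, 36584992604160000, 61737175019520000]

theorem deg3 (t : Fin 3) : IsDegSeq (D3 t) := by
  fin_cases t
  · exact deg_of LA (by decide) (by decide)
  · exact deg_of LB (by decide) (by decide)
  · exact deg_of LC (by decide) (by decide)

theorem chain3 (t t' : Fin 3) (h : t < t') : LeD (D3 t) (D3 t') ∧ D3 t ≠ D3 t' := by
  fin_cases t <;> fin_cases t' <;> first
    | exact absurd h (by decide)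
    | exact ⟨⟨by decide, by decide⟩, by decide⟩

theorem pos3 (t : Fin 3) : 0 < a3 t := by
  fin_cases t <;> simp [a3]

/-- the entries of the table as a function of the row -/
def tab (i e : ℕ) : ℕ := if e = 0 then r0 i else if e = 1 then r1 i else r2 i

theorem key3 : ∀ i < 19, ∀ e < 3, ((tab i e : ℕ) : ℚ) =
    61737175019520000 * pureD LA i ((i : ℤ) + (e : ℤ)) +
      36584992604160000 * pureD LB i ((i : ℤ) + (e : ℤ)) +
      61737175019520000 * pureD LC i ((i : ℤ) + (e : ℤ)) := by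
  decide +kernel

theorem entA : ∀ i < 19, LA.getD i 0 = i ∨ LA.getD i 0 = (i : ℤ) + 1 ∨ LA.getD i 0 = (i : ℤ) + 2 := by
  decide
theorem entB : ∀ i < 19, LB.getD i 0 = i ∨ LB.getD i 0 = (i : ℤ) + 1 ∨ LB.getD i 0 = (i : ℤ) + 2 := by
  decide
theorem entC : ∀ i < 19, LC.getD i 0 = i ∨ LC.getD i 0 = (i : ℤ) + 1 ∨ LC.getD i 0 = (i : ℤ) + 2 := by
  decide

theorem pure_zero {l : List ℤ} {i : ℕ} {j : ℤ}
    (hl : l.getD i 0 = i ∨ l.getD i 0 = (i : ℤ) + 1 ∨ l.getD i 0 = (i : ℤ) + 2)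
    (h0 : j ≠ i) (h1 : j ≠ i + 1) (h2 : j ≠ i + 2) : pureD l i j = 0 := by
  rw [pureD, if_neg]
  rintro ⟨_, h⟩
  rcases hl with hl | hl | hl
  · exact h0 (by rw [← h, hl])
  · exact h1 (by rw [← h, hl])
  · exact h2 (by rw [← h, hl])

theorem sum3 (i : ℕ) (j : ℤ) : (betti 1 5 i j : ℚ) = ∑ t, a3 t * pureD (D3 t) i j := by
  have e : ∑ t, a3 t * pureD (D3 t) i j = 61737175019520000 * pureD LA i j +
      36584992604160000 * pureD LB i j + 61737175019520000 * pureD LC i j := by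
    rw [Fin.sum_univ_three]
    rfl
  rw [e, betti_table]
  rcases Nat.lt_or_ge i 19 with hi | hi
  · split_ifs with h0 h1 h2
    · have := key3 i hi 0 (by norm_num)
      rw [h0]
      rw [Nat.cast_zero, add_zero] at this
      exact this
    · have := key3 i hi 1 (by norm_num)
      rw [h1]
      rw [Nat.cast_one] at this
      exact this
    · have := key3 i hi 2 (by norm_num)
      rw [h2]
      exact_mod_cast this
    · rw [pure_zero (entA i hi) h0 h1 h2, pure_zero (entB i hi) h0 h1 h2,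
        pure_zero (entC i hi) h0 h1 h2]
      norm_num
  · rw [entry_ge (l := LA) hi, entry_ge (l := LB) hi, entry_ge (l := LC) hi]
    have x0 : r0 i = 0 := by
      rw [r0, List.getD_eq_default _ _ (by simp; omega)]
    have x1 : r1 i = 0 := by
      rw [r1, List.getD_eq_default _ _ (by simp; omega)]
    have x2 : r2 i = 0 := by
      rw [r2, if_neg (by omega)]
    rw [x0, x1, x2]
    simp

theorem isBS3 : IsBS (betti 1 5) 3 D3 a3 := ⟨deg3, chain3, pos3, sum3⟩

theorem not_uni3 : ¬ Unimodal a3 :=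
  not_unimodal_of (s₁ := 0) (s₂ := 1) (s₃ := 2) (by decide) (by decide) (by decide +kernel)
    (by decide +kernel)

end Pool.Agent.N92.BT
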