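import Mathlib
import Pool.Agent.N92.BT.Chain

/-!
Identification of the Koszul cohomology groups of `⊕ H⁰(ℙⁿ, 𝒪(β + m d))` with the homology of a region
of cells. This is `W474/Ver/Ident.lean` of the starting library with a twist `β`.
-/

set_option autoImplicit false

namespace Pool.Agent.N92.BT

open MvPolynomial Finset
open Pool.Agent.W474.Ver (Lat Expo closed_of iso_trans iso_symm Poly Sec Mon h0 mon bas kosz exd
  expo_exd nt nt_apply zt nt_zt zt_nt TT TT_pos TT_neg TT_inj kosz_apply coeff_kosz DK_TT mem_Sec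
  kosz_card)
open Pool.Agent.H940R2 (CC res DS ZZ BB HH Lowers Good Ac Split IsoH sg DK dg DK_lowers DK_DK Conv
  cone_ac DK_apply dg_mk DS_apply_mem DS_apply_notMem DS_mem_CC mk_ZZ ZZ_eq quot_equiv)

/-- `Λ^p V_d ⊗ H⁰(ℙⁿ, 𝒪(β + m d))`. -/
noncomputable def chT (n d : ℕ) (β : ℤ) (p : ℕ) (m : ℤ) :
    Submodule ℂ (Finset (Fin (h0 n d)) → Poly n) where
  carrier := {f | (∀ F, f F ∈ Sec n (m * d + β)) ∧ ∀ F, F.card ≠ p → f F = 0}
  add_mem' := by
    rintro f g ⟨hf, hf'⟩ ⟨hg, hg'⟩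
    refine ⟨fun F => Submodule.add_mem _ (hf F) (hg F), fun F hF => ?_⟩
    rw [Pi.add_apply, hf' F hF, hg' F hF, add_zero]
  zero_mem' := ⟨fun F => Submodule.zero_mem _, fun F _ => rfl⟩
  smul_mem' := by
    rintro c f ⟨hf, hf'⟩
    refine ⟨fun F => Submodule.smul_mem _ c (hf F), fun F hF => ?_⟩
    rw [Pi.smul_apply, hf' F hF, smul_zero]

/-- the cycles -/
noncomputable def cyT (n d : ℕ) (β : ℤ) (p : ℕ) (q : ℤ) :
    Submodule ℂ (Finset (Fin (h0 n d)) → Poly n) :=
  chT n d β p q ⊓ LinearMap.ker (kosz n d)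

/-- the boundaries -/
noncomputable def bdT (n d : ℕ) (β : ℤ) (p : ℕ) (q : ℤ) :
    Submodule ℂ (Finset (Fin (h0 n d)) → Poly n) :=
  (chT n d β (p + 1) (q - 1)).map (kosz n d)

/-- the dimension of the Koszul cohomology -/
noncomputable def kT (n d : ℕ) (β : ℤ) (p : ℕ) (q : ℤ) : ℕ :=
  Module.finrank ℂ (cyT n d β p q ⧸ (bdT n d β p q).submoduleOf (cyT n d β p q))

variable {n d : ℕ}

/-- support of the coefficient functions -/
lemma TT_supp {β : ℤ} {f : Finset (Fin (h0 n d)) → Poly n} {t : ℤ}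
    (hf : ∀ F, f F ∈ Sec n ((t - F.card) * d + β)) (x) (hx : TT n d f x ≠ 0) :
    x ∈ Sin (Fin (h0 n d)) n (d : ℤ) β t ∧ f x.1 ≠ 0 := by
  obtain ⟨F, u⟩ := x
  by_cases h : ∀ c, 0 ≤ u c
  · rw [TT_pos h] at hx
    have h1 := hf F (nt u) hx
    refine ⟨⟨?_, h⟩, ?_⟩
    · have e : ∀ c, ((nt u c : ℕ) : ℤ) = u c := by
        intro c
        rw [nt_apply]
        exact Int.toNat_of_nonneg (h c)
      simp only [e] at h1
      simp only [Base, Set.mem_ofPred_eq]
      exact h1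
    · intro h0
      simp only at h0
      rw [h0] at hx
      simp at hx
  · exact absurd (TT_neg h) hx

lemma chains_Sec {β : ℤ} {p : ℕ} {m : ℤ} {f : Finset (Fin (h0 n d)) → Poly n} (hf : f ∈ chT n d β p m)
    (F : Finset (Fin (h0 n d))) : f F ∈ Sec n (((p + m : ℤ) - F.card) * d + β) := by
  by_cases h : F.card = p
  · rw [h]
    have : ((p + m : ℤ) - p) = m := by ring
    rw [this]
    exact hf.1 F
  · rw [hf.2 F h]
    exact Submodule.zero_mem _

lemma kosz_Sec {β t : ℤ} {f : Finset (Fin (h0 n d)) → Poly n}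
    (hf : ∀ F, f F ∈ Sec n ((t - F.card) * d + β)) (F : Finset (Fin (h0 n d))) :
    kosz n d f F ∈ Sec n ((t - F.card) * d + β) := by
  rw [mem_Sec]
  intro u hu
  rw [coeff_kosz] at hu
  obtain ⟨b, hb, hb'⟩ := Finset.exists_ne_zero_of_sum_ne_zero hu
  have h1 := right_ne_zero_of_mul hb'
  by_cases hle : (mon n d b).1 ≤ u
  · rw [if_pos hle] at h1
    have h2 := hf _ _ h1
    rw [Finset.card_insert_of_notMem (by simpa using hb)] at h2
    have e : ∀ c, ((u c : ℕ) : ℤ) = (((u - (mon n d b).1) c : ℕ) : ℤ) +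
        ((mon n d b).1 c : ℤ) := by
      intro c
      have := hle c
      rw [Finsupp.tsub_apply]
      omega
    have e1 : (∑ a, ((mon n d b).1 a : ℤ)) = d := by
      exact_mod_cast (mon n d b).2
    simp only [e, Finset.sum_add_distrib, e1, h2]
    push_cast
    ring
  · rw [if_neg hle] at h1
    exact absurd rfl h1

lemma TT_CC {β : ℤ} {p : ℕ} {m : ℤ} {f : Finset (Fin (h0 n d)) → Poly n} (hf : f ∈ chT n d β p m) :
    TT n d f ∈ CC dg (Sin (Fin (h0 n d)) n (d : ℤ) β (p + m)) p := by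
  intro x hx
  have h1 := TT_supp (fun F => chains_Sec hf F) x hx
  refine ⟨h1.1, ?_⟩
  obtain ⟨F, u⟩ := x
  rw [dg_mk]
  by_contra h
  exact h1.2 (hf.2 _ h)

/-- the differential of the coefficient function -/
lemma DS_TT {β t : ℤ} {f : Finset (Fin (h0 n d)) → Poly n}
    (hf : ∀ F, f F ∈ Sec n ((t - F.card) * d + β)) :
    DS (DK ℂ (exd n d)) (Sin (Fin (h0 n d)) n (d : ℤ) β t) (TT n d f) = TT n d (kosz n d f) := by
  funext x
  by_cases hx : x ∈ Sin (Fin (h0 n d)) n (d : ℤ) β t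
  · rw [DS_apply_mem hx]
    exact DK_TT f x.1 x.2
  · rw [DS_apply_notMem hx]
    symm
    by_contra h
    exact hx (TT_supp (fun F => kosz_Sec hf F) x h).1

/-- every function on the region comes from polynomials -/
lemma TT_surj {β : ℤ} {p : ℕ} {m : ℤ} {g : Finset (Fin (h0 n d)) × Lat n → ℂ}
    (hg : g ∈ CC dg (Sin (Fin (h0 n d)) n (d : ℤ) β (p + m)) p) :
    ∃ f ∈ chT n d β p m, TT n d f = g := by
  classical
  let N : Fin (n + 1) →₀ ℕ := Finsupp.equivFunOnFinite.symm (fun _ => (m * d + β).toNat)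
  let f : Finset (Fin (h0 n d)) → Poly n := fun F =>
    ∑ u ∈ Finset.Iic N, monomial u (g (F, zt u))
  have key : ∀ F : Finset (Fin (h0 n d)), ∀ u : Fin (n + 1) →₀ ℕ, g (F, zt u) ≠ 0 →
      (∑ a, (u a : ℤ)) = m * d + β ∧ F.card = p := by
    intro F u h
    have h1 := hg _ h
    have h2 : F.card = p := h1.2
    refine ⟨?_, h2⟩
    have h3 := h1.1.1
    simp only [Base, Set.mem_ofPred_eq, zt, h2] at h3
    have : ((p + m : ℤ) - p) = m := by ring
    rw [this] at h3
    exact h3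
  have hcoeff : ∀ F : Finset (Fin (h0 n d)), ∀ u : Fin (n + 1) →₀ ℕ,
      coeff u (f F) = g (F, zt u) := by
    intro F u
    simp only [f, coeff_sum, coeff_monomial]
    rw [Finset.sum_ite_eq']
    split_ifs with h
    · rfl
    · by_contra hne
      apply h
      rw [Finset.mem_Iic]
      obtain ⟨h1, _⟩ := key F u (fun h' => hne h'.symm)
      intro c
      change u c ≤ (m * d + β).toNat
      have : (u c : ℤ) ≤ m * d + β := by
        rw [← h1]
        exact Finset.single_le_sum (f := fun a => (u a : ℤ))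
          (fun _ _ => Int.natCast_nonneg _) (Finset.mem_univ c)
      omega
  refine ⟨f, ⟨?_, ?_⟩, ?_⟩
  · intro F u hu
    rw [hcoeff] at hu
    exact (key F u hu).1
  · intro F hF
    ext u
    rw [hcoeff, coeff_zero]
    by_contra h
    exact hF (key F u h).2
  · funext x
    obtain ⟨F, u⟩ := x
    by_cases h : ∀ c, 0 ≤ u c
    · rw [TT_pos h, hcoeff, zt_nt h]
    · rw [TT_neg h]
      by_contra hne
      have h1 := hg _ (fun h' => hne h'.symm)
      exact h h1.1.2

/-- The Koszul cohomology group is the homology of the region `Sin`. -/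
theorem ident (n d : ℕ) (β : ℤ) (p : ℕ) (q : ℤ) :
    Nonempty ((cyT n d β p q ⧸ (bdT n d β p q).submoduleOf (cyT n d β p q)) ≃ₗ[ℂ]
      HH dg (DK ℂ (exd n d)) (Sin (Fin (h0 n d)) n (d : ℤ) β (p + q)) p) := by
  refine quot_equiv _ _ _ _ ((TT n d).comp (Submodule.subtype _)) ?_ ?_ ?_
  · rintro ⟨z, hz⟩
    refine mk_ZZ (TT_CC hz.1) ?_
    change DS _ _ (TT n d z) = 0
    rw [DS_TT (fun F => chains_Sec hz.1 F), (LinearMap.mem_ker.mp hz.2), map_zero]
  · intro w hw
    obtain ⟨f, hf, rfl⟩ := TT_surj hw.1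
    refine ⟨⟨f, hf, ?_⟩, 0, Submodule.zero_mem _, Submodule.zero_mem _, ?_⟩
    · have h1 := ZZ_eq hw
      rw [DS_TT (fun F => chains_Sec hf F)] at h1
      exact LinearMap.mem_ker.mpr (TT_inj (by rw [h1, map_zero]))
    · rw [sub_zero]; rfl
  · rintro ⟨z, hz⟩
    have et : ((p + 1 : ℕ) : ℤ) + (q - 1) = p + q := by push_cast; ring
    constructor
    · rintro ⟨y, hy, hyz⟩
      have hy' : y ∈ CC dg (Sin (Fin (h0 n d)) n (d : ℤ) β (((p + 1 : ℕ) : ℤ) + (q - 1)))
          (p + 1) := by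
        rw [et]; exact hy
      obtain ⟨f, hf, rfl⟩ := TT_surj hy'
      have h1 := fun F => chains_Sec hf F
      rw [et] at h1
      rw [DS_TT h1] at hyz
      refine ⟨f, hf, ?_⟩
      change kosz n d f = z
      apply TT_inj
      exact hyz
    · rintro ⟨f, hf, hfz⟩
      have h1 := fun F => chains_Sec hf F
      rw [et] at h1
      have hy' := TT_CC hf
      rw [et] at hy'
      refine ⟨TT n d f, hy', ?_⟩
      rw [DS_TT h1]
      change TT n d (kosz n d f) = TT n d z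
      rw [hfz]

/-- `K_{p,q}` as the homology of the region `Sout`. -/
theorem kT_eq (n d : ℕ) (β : ℤ) (p : ℕ) (q : ℤ) :
    kT n d β p q = Module.finrank ℂ
      (HH dg (DK ℂ (exd n d)) (Sout (Fin (h0 n d)) n (d : ℤ) β (p + q)) (p + (n + 1))) := by
  obtain ⟨e1⟩ := ident n d β p q
  obtain ⟨e2⟩ := chain ℂ (expo_exd (n := n) (d := d)) β ((p : ℤ) + q) p
  exact (e1.trans e2).finrank_eq

end Pool.Agent.N92.BT
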