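import Mathlib
import Pool.Agent.N92.BT.Ident

/-!
The last strand of the Koszul cohomology of `⊕ H⁰(ℙⁿ, 𝒪(β + m d))` in terms of interior monomials. This
is `W474/Ver/Interior.lean` of the starting library with a twist `β`.
-/

set_option autoImplicit false

namespace Pool.Agent.N92.BT

open MvPolynomial Finset
open Pool.Agent.W474.Ver (Lat Expo closed_of iso_trans iso_symm Poly Sec Mon h0 mon bas kosz exd
  expo_exd nt nt_apply zt nt_zt zt_nt TT TT_pos TT_neg TT_inj kosz_apply coeff_kosz DK_TT mem_Sec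
  kosz_card M0 rk ep ep_mul_self ep_ne_zero PP PP_pos PP_neg PP_inj DT_PP)
open Pool.Agent.H940R2 (CC res DS ZZ BB HH Lowers Good Ac Split IsoH sg DK dg DK_lowers DK_DK Conv
  cone_ac DK_apply dg_mk DS_apply_mem DS_apply_notMem DS_mem_CC mk_ZZ ZZ_eq quot_equiv
  DD prg finrank_HH_dual DT DT_apply DK_pair)

/-- the cycles with values in `M0` -/
noncomputable def KK (n d D p : ℕ) : Submodule ℂ (Finset (Fin (h0 n d)) → Poly n) where
  carrier := {f | (∀ B, f B ∈ M0 n D) ∧ (∀ B, B.card ≠ p → f B = 0) ∧ kosz n d f = 0}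
  add_mem' := by
    rintro f g ⟨hf, hf', hf''⟩ ⟨hg, hg', hg''⟩
    refine ⟨fun F => Submodule.add_mem _ (hf F) (hg F), fun F hF => ?_, ?_⟩
    · rw [Pi.add_apply, hf' F hF, hg' F hF, add_zero]
    · rw [map_add, hf'', hg'', add_zero]
  zero_mem' := ⟨fun F => Submodule.zero_mem _, fun F _ => rfl, map_zero _⟩
  smul_mem' := by
    rintro c f ⟨hf, hf', hf''⟩
    refine ⟨fun F => Submodule.smul_mem _ c (hf F), fun F hF => ?_, ?_⟩
    · rw [Pi.smul_apply, hf' F hF, smul_zero]
    · rw [map_smul, hf'', smul_zero]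

variable {n d : ℕ}

variable {p p' : ℕ}

lemma PP_mem {β : ℤ} {D : ℕ} (hD : (D : ℤ) = d - β) (h : p + (n + 1) + p' = h0 n d) {f : Finset (Fin (h0 n d)) → Poly n}
    (hf : f ∈ KK n d D p') :
    PP n d f ∈ DD dg (DT ℂ (exd n d)) (Sout (Fin (h0 n d)) n (d : ℤ) β (p + n)) (p + (n + 1)) := by
  constructor
  · rintro ⟨G, u⟩ hx
    by_cases hc : ∀ c, 0 ≤ (-u) c
    · rw [PP_pos hc] at hx
      have h1 := right_ne_zero_of_mul hx
      have h2 : (Gᶜ).card = p' := by
        by_contra h3
        rw [hf.2.1 _ h3, coeff_zero] at h1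
        exact h1 rfl
      have h3 : G.card = p + (n + 1) := by
        rw [Finset.card_compl, Fintype.card_fin] at h2
        have := Finset.card_le_univ G
        rw [Fintype.card_fin] at this
        omega
      have h4 := hf.1 _ _ h1
      have e : ∀ c, u c = - ((nt (-u) c : ℕ) : ℤ) := by
        intro c
        rw [nt_apply, Int.toNat_of_nonneg (hc c)]
        simp
      refine ⟨⟨?_, ?_⟩, ?_⟩
      · simp only [Base, Set.mem_ofPred_eq, h3]
        simp only [e, Finset.sum_neg_distrib]
        rw [← Nat.cast_sum, h4.1, hD]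
        push_cast
        ring
      · intro c
        have := h4.2 c
        rw [nt_apply] at this
        simp only [Pi.neg_apply] at this ⊢
        omega
      · rw [dg_mk, h3]
    · exact absurd (PP_neg hc) hx
  · rintro ⟨F, w⟩ hz _
    rw [DT_PP f F, hf.2.2]
    · simp
    · intro c
      have := hz.2 c
      simp only [Pi.neg_apply] at this ⊢
      omega

lemma PP_surj {β : ℤ} {D : ℕ} (hD : (D : ℤ) = d - β) (h : p + (n + 1) + p' = h0 n d) {l : Finset (Fin (h0 n d)) × Lat n → ℂ}
    (hl : l ∈ DD dg (DT ℂ (exd n d)) (Sout (Fin (h0 n d)) n (d : ℤ) β (p + n)) (p + (n + 1))) :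
    ∃ f ∈ KK n d D p', PP n d f = l := by
  classical
  let N : Fin (n + 1) →₀ ℕ := Finsupp.equivFunOnFinite.symm (fun _ => D)
  let f : Finset (Fin (h0 n d)) → Poly n := fun B =>
    ∑ u ∈ Finset.Iic N, monomial u (ep Bᶜ * l (Bᶜ, -zt u))
  have key : ∀ B : Finset (Fin (h0 n d)), ∀ u : Fin (n + 1) →₀ ℕ, l (Bᶜ, -zt u) ≠ 0 →
      ((∑ a, u a) = D ∧ ∀ c, 1 ≤ u c) ∧ B.card = p' := by
    intro B u hne
    have h1 := hl.1 _ hne
    have h2 : (Bᶜ).card = p + (n + 1) := h1.2
    have h2' : B.card = p' := by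
      rw [Finset.card_compl, Fintype.card_fin] at h2
      have := Finset.card_le_univ B
      rw [Fintype.card_fin] at this
      omega
    refine ⟨⟨?_, ?_⟩, h2'⟩
    · have h3 := h1.1.1
      simp only [Base, Set.mem_ofPred_eq, zt, h2, Pi.neg_apply,
        Finset.sum_neg_distrib] at h3
      push_cast at h3
      zify
      rw [hD]
      linear_combination -h3
    · intro c
      have := h1.1.2 c
      simp only [zt, Pi.neg_apply] at this
      omega
  have hcoeff : ∀ B : Finset (Fin (h0 n d)), ∀ u : Fin (n + 1) →₀ ℕ,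
      coeff u (f B) = ep Bᶜ * l (Bᶜ, -zt u) := by
    intro F u
    simp only [f, coeff_sum, coeff_monomial]
    rw [Finset.sum_ite_eq']
    split_ifs with h
    · rfl
    · by_contra hne
      apply h
      rw [Finset.mem_Iic]
      obtain ⟨⟨h1, _⟩, _⟩ := key F u (fun h' => hne (by rw [h', mul_zero]))
      intro c
      change u c ≤ D
      rw [← h1]
      exact Finset.single_le_sum (f := fun a => (u a))
        (fun _ _ => Nat.zero_le _) (Finset.mem_univ c)
  have hPP : PP n d f = l := by
    funext x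
    obtain ⟨G, u⟩ := x
    by_cases hc : ∀ c, 0 ≤ (-u) c
    · rw [PP_pos hc, hcoeff, compl_compl, zt_nt hc, neg_neg, ← mul_assoc,
        ep_mul_self, one_mul]
    · rw [PP_neg hc]
      by_contra hne
      have h1 := hl.1 _ (fun h' => hne h'.symm)
      exact hc (fun c => by
        have := h1.1.2 c
        simp only [Pi.neg_apply] at this ⊢
        omega)
  have hM0 : ∀ B, f B ∈ M0 n D := by
    intro B u hu
    rw [hcoeff] at hu
    exact (key B u (right_ne_zero_of_mul hu)).1
  have hcard : ∀ B, B.card ≠ p' → f B = 0 := by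
    intro B hB
    ext u
    rw [hcoeff, coeff_zero]
    by_contra hne
    exact hB (key B u (right_ne_zero_of_mul hne)).2
  refine ⟨f, ⟨hM0, hcard, ?_⟩, hPP⟩
  funext A
  ext u
  rw [Pi.zero_apply, coeff_zero]
  by_contra hne
  have h1 := DT_PP f Aᶜ (w := -zt u) (fun c => by simp [zt])
  rw [compl_compl, neg_neg, nt_zt, hPP] at h1
  have h2 : DT ℂ (exd n d) l (Aᶜ, -zt u) ≠ 0 := by
    rw [h1]
    exact mul_ne_zero (ep_ne_zero _) hne
  apply h2
  rw [coeff_kosz] at hne
  obtain ⟨b, hb, hb'⟩ := Finset.exists_ne_zero_of_sum_ne_zero hne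
  have h3 := right_ne_zero_of_mul hb'
  by_cases hle : (mon n d b).1 ≤ u
  · rw [if_pos hle] at h3
    have h4 := hM0 _ _ h3
    have h5 : (insert b A).card = p' := by
      by_contra h6
      rw [hcard _ h6, coeff_zero] at h3
      exact h3 rfl
    rw [Finset.card_insert_of_notMem (by simpa using hb)] at h5
    have h6 : (Aᶜ).card = p + (n + 1) + 1 := by
      rw [Finset.card_compl, Fintype.card_fin]
      have := Finset.card_le_univ A
      rw [Fintype.card_fin] at this
      omega
    apply hl.2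
    · refine ⟨?_, ?_⟩
      · simp only [Base, Set.mem_ofPred_eq, zt, h6, Pi.neg_apply,
          Finset.sum_neg_distrib]
        have e : ∀ c, ((u c : ℕ) : ℤ) = (((u - (mon n d b).1) c : ℕ) : ℤ) +
            ((mon n d b).1 c : ℤ) := by
          intro c
          have := hle c
          rw [Finsupp.tsub_apply]
          omega
        have e1 : (∑ a, ((mon n d b).1 a : ℤ)) = d := by
          exact_mod_cast (mon n d b).2
        have e3 : (∑ a, (((u - (mon n d b).1) a : ℕ) : ℤ)) = d - β := by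
          rw [← hD]
          exact_mod_cast h4.1
        simp only [e, Finset.sum_add_distrib, e1, e3]
        push_cast
        ring
      · intro c
        have := h4.2 c
        rw [Finsupp.tsub_apply] at this
        simp only [zt, Pi.neg_apply]
        omega
    · rw [dg_mk, h6]
  · rw [if_neg hle] at h3
    exact absurd rfl h3

lemma sout_finite (n d : ℕ) (β t : ℤ) :
    (Sout (Fin (h0 n d)) n (d : ℤ) β t).Finite := by
  have h1 : (Sout (Fin (h0 n d)) n (d : ℤ) β t) ⊆
      ⋃ F : Finset (Fin (h0 n d)),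
        ({F} : Set _) ×ˢ (Set.Icc (fun _ => (t - F.card) * d + β) (fun _ => 0) : Set (Lat n)) := by
    rintro ⟨F, u⟩ hx
    rw [Set.mem_iUnion]
    refine ⟨F, rfl, ?_, ?_⟩
    · intro c
      obtain ⟨h1, h3⟩ := hx
      simp only [Base, Set.mem_ofPred_eq] at h1 h3
      change (t - F.card) * (d : ℤ) + β ≤ u c
      rw [← h1]
      have := Finset.sum_le_sum_of_subset_of_nonneg (f := fun a => -u a)
        (Finset.subset_univ {c}) (fun i _ _ => by have := h3 i; omega)
      rw [Finset.sum_singleton, Finset.sum_neg_distrib] at this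
      omega
    · intro c
      have := hx.2 c
      simp only at this ⊢
      omega
  refine Set.Finite.subset ?_ h1
  refine Set.finite_iUnion fun F => ?_
  exact Set.Finite.prod (Set.finite_singleton F) (Set.finite_Icc _ _)

/-- `K_{p,n}` in terms of the module of interior monomials. -/
theorem kT_eq_KK {β : ℤ} {D : ℕ} (hD : (D : ℤ) = d - β) (hβ : 0 ≤ β) (h : p + (n + 1) + p' = h0 n d) :
    kT n d β p n = Module.finrank ℂ (KK n d D p') := by
  classical
  rw [kT_eq]
  have hfin := sout_finite n d β ((p : ℤ) + n)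
  have hf5 : {x | x ∈ Sout (Fin (h0 n d)) n (d : ℤ) β (p + n) ∧ dg x = p + (n + 1)}.Finite :=
    hfin.subset (fun x hx => hx.1)
  have hf6 : {x | x ∈ Sout (Fin (h0 n d)) n (d : ℤ) β (p + n) ∧ dg x = p + (n + 1) + 1}.Finite :=
    hfin.subset (fun x hx => hx.1)
  rw [finrank_HH_dual (DT := DT ℂ (exd n d)) hf5.toFinset hf6.toFinset (by simp) (by simp)
    ?_ (DK_lowers _) ?_]
  · let Φ : KK n d D p' →ₗ[ℂ]
        DD dg (DT ℂ (exd n d)) (Sout (Fin (h0 n d)) n (d : ℤ) β (p + n)) (p + (n + 1)) :=
      ((PP n d).comp (Submodule.subtype _)).codRestrict _ (fun f => PP_mem hD h f.2)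
    have hinj : Function.Injective Φ := by
      intro f g hfg
      apply Subtype.ext
      exact PP_inj (congrArg Subtype.val hfg)
    have hsurj : Function.Surjective Φ := by
      rintro ⟨l, hl⟩
      obtain ⟨f, hf, hfl⟩ := PP_surj hD h hl
      exact ⟨⟨f, hf⟩, Subtype.ext hfl⟩
    exact (LinearEquiv.ofBijective Φ ⟨hinj, hsurj⟩).finrank_eq.symm
  · intro w hw
    have h1 : DS (DK ℂ (exd n d)) (Sout (Fin (h0 n d)) n (d : ℤ) β (p + n)) w ∈
        CC dg (Sout (Fin (h0 n d)) n (d : ℤ) β (p + n)) (p + n) := DS_mem_CC (DK_lowers _) hw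
    funext x
    by_contra hne
    obtain ⟨⟨h2, h4⟩, h5⟩ := h1 x hne
    obtain ⟨F, u⟩ := x
    simp only [Base, Set.mem_ofPred_eq, dg_mk] at h2 h5 h4
    rw [h5] at h2
    push_cast at h2
    simp only [sub_self, zero_mul, zero_add] at h2
    have h6 : ∑ a, u a < 0 := by
      have : ∑ a : Fin (n + 1), u a < ∑ a : Fin (n + 1), (0 : ℤ) :=
        Finset.sum_lt_sum_of_nonempty Finset.univ_nonempty (fun i _ => h4 i)
      simpa using this
    omega
  · intro y l hy hl
    exact DK_pair _ _ _ y l hy hl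

end Pool.Agent.N92.BT
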