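import Pool.Agent.N92.BT.Interior
import Pool.Agent.N92.BS.Dim

/-! # `K_{p,0}(ℙ², 𝒪(1); 𝒪(5)) = 0` for `p ≥ 3` -/

set_option autoImplicit false

namespace Pool.Agent.N92.BT

open MvPolynomial Finset Module
open Pool.Agent.W474.Ver (Poly Sec Mon h0 mon bas kosz kosz_apply coeff_kosz mem_Sec M0 kosz_card)

/-- the exponent vector of the variable `i` -/
noncomputable def ev (i : Fin 3) : Fin 3 →₀ ℕ := Finsupp.single i 1

theorem ev_apply (i j : Fin 3) : ev i j = if i = j then 1 else 0 := by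
  rw [ev, Finsupp.single_apply]

theorem eq_ev {u : Fin 3 →₀ ℕ} (h : ∑ a, u a = 1) : ∃ i, u = ev i := by
  rw [Fin.sum_univ_three] at h
  have h3 : u 0 = 1 ∧ u 1 = 0 ∧ u 2 = 0 ∨ u 0 = 0 ∧ u 1 = 1 ∧ u 2 = 0 ∨
      u 0 = 0 ∧ u 1 = 0 ∧ u 2 = 1 := by omega
  rcases h3 with ⟨a, b, c⟩ | ⟨a, b, c⟩ | ⟨a, b, c⟩
  · refine ⟨0, Finsupp.ext fun j => ?_⟩
    rw [ev_apply]
    fin_cases j
    · simpa using a
    · simpa using b
    · simpa using c
  · refine ⟨1, Finsupp.ext fun j => ?_⟩
    rw [ev_apply]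
    fin_cases j
    · simpa using a
    · simpa using b
    · simpa using c
  · refine ⟨2, Finsupp.ext fun j => ?_⟩
    rw [ev_apply]
    fin_cases j
    · simpa using a
    · simpa using b
    · simpa using c

theorem sec_one {g : Poly 2} (hg : g ∈ Sec 2 (0 * ((5 : ℕ) : ℤ) + 1)) {u : Fin 3 →₀ ℕ}
    (hu : coeff u g ≠ 0) : ∃ i, u = ev i := by
  apply eq_ev
  have h := hg u hu
  have h' : (∑ a, (u a : ℤ)) = ((1 : ℕ) : ℤ) := by
    rw [h]
    norm_num
  exact_mod_cast h'

theorem sec_zero {g : Poly 2} (hg : g ∈ Sec 2 (0 * ((5 : ℕ) : ℤ) + 1))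
    (h : ∀ i, coeff (ev i) g = 0) : g = 0 := by
  ext u
  rw [coeff_zero]
  by_contra hu
  obtain ⟨i, rfl⟩ := sec_one hg hu
  exact hu (h i)

theorem step {p : ℕ} {f : Finset (Fin (h0 2 5)) → Poly 2} (hf : f ∈ cyT 2 5 1 p 0)
    {F : Finset (Fin (h0 2 5))} {b : Fin (h0 2 5)} (hb : b ∈ F) (i : Fin 3)
    (H : ∀ c, c ∉ F.erase b → c ≠ b → ∀ j, j ≠ i → (mon 2 5 c).1 + ev j = (mon 2 5 b).1 + ev i →
      coeff (ev j) (f (insert c (F.erase b))) = 0) : coeff (ev i) (f F) = 0 := by
  have h1 : coeff ((mon 2 5 b).1 + ev i) (kosz 2 5 f (F.erase b)) = 0 := by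
    rw [LinearMap.mem_ker.1 hf.2]
    rfl
  rw [coeff_kosz, Finset.sum_eq_single b] at h1
  · rw [if_pos (le_add_right le_rfl), add_tsub_cancel_left, Finset.insert_erase hb] at h1
    rcases mul_eq_zero.1 h1 with h | h
    · exact absurd h (pow_ne_zero _ (by norm_num))
    · exact h
  · intro c hc hcb
    by_cases hle : (mon 2 5 c).1 ≤ (mon 2 5 b).1 + ev i
    · rw [if_pos hle]
      by_contra hne
      have hne' := right_ne_zero_of_mul hne
      obtain ⟨j, hj⟩ := sec_one (hf.1.1 _) hne'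
      have h2 : (mon 2 5 c).1 + ev j = (mon 2 5 b).1 + ev i := by
        rw [← hj]
        exact add_tsub_cancel_of_le hle
      rw [hj] at hne'
      by_cases hji : j = i
      · subst hji
        exact hcb ((mon 2 5).injective (Subtype.ext (add_right_cancel h2)))
      · exact hne' (H c (Finset.mem_compl.1 hc) hcb j hji h2)
    · rw [if_neg hle, mul_zero]
  · intro h
    exact absurd (Finset.mem_compl.2 (Finset.notMem_erase b F)) h

theorem cy0_bot {p : ℕ} (hp : 3 ≤ p) : cyT 2 5 1 p 0 = ⊥ := by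
  classical
  rw [eq_bot_iff]
  intro f hf
  rw [Submodule.mem_bot]
  by_contra hne
  have hcard : ∀ F, f F ≠ 0 → F.card = p := by
    intro F hF
    by_contra hc
    exact hF (hf.1.2 F hc)
  obtain ⟨F0, hF0⟩ : ∃ F, f F ≠ 0 := by
    by_contra hc
    push Not at hc
    exact hne (funext hc)
  -- phase 1
  obtain ⟨b0, hb0⟩ : F0.Nonempty := by
    rw [← Finset.card_pos, hcard F0 hF0]
    omega
  obtain ⟨b1, hb1, hmax1⟩ := Finset.exists_max_image
    (univ.filter fun b => ∃ F, b ∈ F ∧ f F ≠ 0) (fun b => (mon 2 5 b).1 0)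
    ⟨b0, by simpa using ⟨F0, hb0, hF0⟩⟩
  rw [Finset.mem_filter] at hb1
  obtain ⟨-, F1, hbF1, hF1⟩ := hb1
  have P1 : ∀ F, b1 ∈ F → coeff (ev 0) (f F) = 0 := by
    intro F hF
    refine step hf hF 0 fun c _ _ j hj he => ?_
    have h1 := congrArg (fun v : Fin 3 →₀ ℕ => v 0) he
    simp only [Finsupp.add_apply, ev_apply, if_neg hj, if_pos] at h1
    have h2 : f (insert c (F.erase b1)) = 0 := by
      by_contra hc
      have := hmax1 c (by
        rw [Finset.mem_filter]
        exact ⟨Finset.mem_univ _, _, Finset.mem_insert_self _ _, hc⟩)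
      omega
    rw [h2, coeff_zero]
  -- phase 2
  obtain ⟨c0, hc0, hc0'⟩ : ∃ c ∈ F1, c ≠ b1 := by
    apply Finset.exists_mem_ne
    rw [hcard F1 hF1]
    omega
  obtain ⟨b2, hb2, hmax2⟩ := Finset.exists_max_image
    (univ.filter fun b => b ≠ b1 ∧ ∃ F, b1 ∈ F ∧ b ∈ F ∧ f F ≠ 0) (fun b => (mon 2 5 b).1 1)
    ⟨c0, by
      rw [Finset.mem_filter]
      exact ⟨Finset.mem_univ _, hc0', F1, hbF1, hc0, hF1⟩⟩
  rw [Finset.mem_filter] at hb2
  obtain ⟨-, hb21, F2, hbF2, hbF2', hF2⟩ := hb2
  have P2 : ∀ F, b1 ∈ F → b2 ∈ F → coeff (ev 1) (f F) = 0 := by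
    intro F hF hF'
    refine step hf hF' 1 fun c hc _ j hj he => ?_
    have hm : b1 ∈ F.erase b2 := Finset.mem_erase.2 ⟨hb21.symm, hF⟩
    have hm' : b1 ∈ insert c (F.erase b2) := Finset.mem_insert_of_mem hm
    by_cases hj0 : j = 0
    · rw [hj0]
      exact P1 _ hm'
    · have h1 := congrArg (fun v : Fin 3 →₀ ℕ => v 1) he
      simp only [Finsupp.add_apply, ev_apply, if_neg hj, if_pos] at h1
      have h2 : f (insert c (F.erase b2)) = 0 := by
        by_contra hc'
        have := hmax2 c (by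
          rw [Finset.mem_filter]
          refine ⟨Finset.mem_univ _, ?_, _, hm', Finset.mem_insert_self _ _, hc'⟩
          rintro rfl
          exact hc hm)
        omega
      rw [h2, coeff_zero]
  -- phase 3
  obtain ⟨b3, hb3, hb31, hb32⟩ : ∃ c ∈ F2, c ≠ b1 ∧ c ≠ b2 := by
    have h1 : 0 < ((F2.erase b1).erase b2).card := by
      rw [Finset.card_erase_of_mem (Finset.mem_erase.2 ⟨hb21, hbF2'⟩),
        Finset.card_erase_of_mem hbF2, hcard F2 hF2]
      omega
    obtain ⟨c, hc⟩ := Finset.card_pos.1 h1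
    rw [Finset.mem_erase, Finset.mem_erase] at hc
    exact ⟨c, hc.2.2, hc.2.1, hc.1⟩
  apply hF2
  apply sec_zero (hf.1.1 F2)
  intro i
  by_cases hi0 : i = 0
  · rw [hi0]
    exact P1 _ hbF2
  by_cases hi1 : i = 1
  · rw [hi1]
    exact P2 _ hbF2 hbF2'
  refine step hf hb3 i fun c _ _ j hj _ => ?_
  have m1 : b1 ∈ insert c (F2.erase b3) :=
    Finset.mem_insert_of_mem (Finset.mem_erase.2 ⟨hb31.symm, hbF2⟩)
  have m2 : b2 ∈ insert c (F2.erase b3) :=
    Finset.mem_insert_of_mem (Finset.mem_erase.2 ⟨hb32.symm, hbF2'⟩)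
  by_cases hj0 : j = 0
  · rw [hj0]
    exact P1 _ m1
  by_cases hj1 : j = 1
  · rw [hj1]
    exact P2 _ m1 m2
  exfalso
  apply hj
  omega

/-- the exponent vector of `x y z` -/
noncomputable def one3 : Fin 3 →₀ ℕ := Finsupp.equivFunOnFinite.symm (fun _ => 1)

theorem one3_apply (i : Fin 3) : one3 i = 1 := rfl

/-- multiplication by `x y z` -/
noncomputable def mulO : (Finset (Fin (h0 2 5)) → Poly 2) →ₗ[ℂ] (Finset (Fin (h0 2 5)) → Poly 2) where
  toFun f := fun F => monomial one3 1 * f F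
  map_add' := by
    intro f g
    funext F
    simp [mul_add]
  map_smul' := by
    intro c f
    funext F
    simp

theorem mulO_apply (f : Finset (Fin (h0 2 5)) → Poly 2) (F : Finset (Fin (h0 2 5))) :
    mulO f F = monomial one3 1 * f F := rfl

theorem mulO_inj : Function.Injective mulO := by
  rw [injective_iff_map_eq_zero]
  intro f hf
  funext F
  have h := congrFun hf F
  rw [mulO_apply, Pi.zero_apply] at h
  rcases mul_eq_zero.1 h with h | h
  · rw [monomial_eq_zero] at h
    exact absurd h one_ne_zero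
  · exact h

theorem kosz_mulO (f : Finset (Fin (h0 2 5)) → Poly 2) : kosz 2 5 (mulO f) = mulO (kosz 2 5 f) := by
  funext G
  rw [mulO_apply, kosz_apply, kosz_apply, Finset.mul_sum]
  refine Finset.sum_congr rfl fun b _ => ?_
  rw [mulO_apply]
  ring

theorem KK_eq (p : ℕ) : finrank ℂ (KK 2 5 4 p) = finrank ℂ (cyT 2 5 1 p 0) := by
  have hmap : KK 2 5 4 p = (cyT 2 5 1 p 0).map mulO := by
    ext g
    constructor
    · rintro ⟨h1, h2, h3⟩
      have hdiv : ∀ F, monomial one3 1 * (divMonomial (g F) one3) = g F := by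
        intro F
        ext u
        rw [coeff_monomial_mul']
        by_cases hle : one3 ≤ u
        · rw [if_pos hle, one_mul, coeff_divMonomial, add_tsub_cancel_of_le hle]
        · rw [if_neg hle]
          by_contra hc
          apply hle
          intro c
          exact (h1 F u (fun h => hc h.symm)).2 c
      have hg : mulO (fun F => divMonomial (g F) one3) = g := funext hdiv
      refine ⟨fun F => divMonomial (g F) one3, ⟨⟨?_, ?_⟩, ?_⟩, hg⟩
      · intro F u hu
        change coeff u (divMonomial (g F) one3) ≠ 0 at hu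
        rw [coeff_divMonomial] at hu
        have h4 := (h1 F _ hu).1
        have h4' : (∑ a, one3 a) + ∑ a, u a = 4 := by
          rw [← Finset.sum_add_distrib]
          exact h4
        have h5' : (∑ a, one3 a) = 3 := by
          rw [Fin.sum_univ_three]
          rfl
        have h5 : ∑ a, u a = 1 := by
          omega
        have h6 : (∑ a, (u a : ℤ)) = ((1 : ℕ) : ℤ) := by exact_mod_cast h5
        rw [h6]
        norm_num
      · intro F hF
        beta_reduce
        rw [h2 F hF]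
        exact zero_divMonomial _
      · rw [SetLike.mem_coe, LinearMap.mem_ker]
        apply mulO_inj
        rw [← kosz_mulO, hg, h3, map_zero]
    · rintro ⟨f, ⟨⟨h1, h2⟩, h3⟩, rfl⟩
      refine ⟨?_, ?_, ?_⟩
      · intro F u hu
        rw [mulO_apply, coeff_monomial_mul'] at hu
        by_cases hle : one3 ≤ u
        · rw [if_pos hle, one_mul] at hu
          have h4 := h1 F _ hu
          have h5 : ∀ c, u c = (u - one3) c + 1 := by
            intro c
            have := hle c
            rw [one3_apply] at this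
            rw [Finsupp.tsub_apply, one3_apply]
            omega
          refine ⟨?_, fun c => hle c⟩
          have h6 : (∑ a, (((u - one3) a : ℕ) : ℤ)) = ((1 : ℕ) : ℤ) := by
            rw [h4]
            norm_num
          have h7 : ∑ a, (u - one3) a = 1 := by exact_mod_cast h6
          rw [Finset.sum_congr rfl fun c _ => h5 c, Finset.sum_add_distrib, h7]
          simp
        · rw [if_neg hle] at hu
          exact absurd rfl hu
      · intro F hF
        rw [mulO_apply, h2 F hF, mul_zero]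
      · rw [kosz_mulO, LinearMap.mem_ker.1 h3, map_zero]
  rw [hmap]
  exact (Submodule.equivMapOfInjective mulO mulO_inj (cyT 2 5 1 p 0)).finrank_eq.symm
end Pool.Agent.N92.BT
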