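import Pool.Agent.N92.BT.Rec

/-! # `K_{0,1}(ℙ², 𝒪(1); 𝒪(5)) = K_{1,1}(ℙ², 𝒪(1); 𝒪(5)) = 0` -/

set_option autoImplicit false

namespace Pool.Agent.N92.BT

open MvPolynomial Finset Module
open Pool.Agent.W474.Ver (Poly Sec Mon h0 mon bas kosz kosz_apply coeff_kosz mem_Sec M0 kosz_card
  kosz_kosz Sec_finite)

/-- the chain `m_b ⊗ x^u` -/
noncomputable def ee (b : Fin (h0 2 5)) (u : Fin 3 →₀ ℕ) : Finset (Fin (h0 2 5)) → Poly 2 :=
  fun F => if F = {b} then monomial u 1 else 0

theorem ee_mem (b : Fin (h0 2 5)) {u : Fin 3 →₀ ℕ} (hu : ∑ a, u a = 6) :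
    ee b u ∈ chT 2 5 1 1 1 := by
  refine ⟨fun F => ?_, fun F hF => ?_⟩
  · rw [ee]
    split_ifs
    · intro v hv
      rw [coeff_monomial] at hv
      by_cases h : u = v
      · subst h
        have : (∑ a, (u a : ℤ)) = ((6 : ℕ) : ℤ) := by exact_mod_cast hu
        rw [this]
        norm_num
      · rw [if_neg h] at hv
        exact absurd rfl hv
    · exact Submodule.zero_mem _
  · rw [ee, if_neg]
    rintro rfl
    exact hF (Finset.card_singleton b)

/-- the chain `m_b ∧ m_c ⊗ x_i` -/
noncomputable def gg (b c : Fin (h0 2 5)) (i : Fin 3) : Finset (Fin (h0 2 5)) → Poly 2 :=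
  fun F => if F = {b, c} then monomial (ev i) 1 else 0

theorem gg_mem {b c : Fin (h0 2 5)} (hbc : b ≠ c) (i : Fin 3) : gg b c i ∈ chT 2 5 1 (1 + 1) (1 - 1) := by
  refine ⟨fun F => ?_, fun F hF => ?_⟩
  · rw [gg]
    split_ifs
    · intro v hv
      rw [coeff_monomial] at hv
      by_cases h : ev i = v
      · subst h
        have : (∑ a, (ev i a : ℤ)) = 1 := by
          rw [Fin.sum_univ_three, ev_apply, ev_apply, ev_apply]
          fin_cases i <;> rfl
        rw [this]
        norm_num
      · rw [if_neg h] at hv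
        exact absurd rfl hv
    · exact Submodule.zero_mem _
  · rw [gg, if_neg]
    rintro rfl
    exact hF (Finset.card_pair hbc)

theorem kosz_gg {b c : Fin (h0 2 5)} (hbc : b < c) (i : Fin 3) :
    kosz 2 5 (gg b c i) = ee c ((mon 2 5 b).1 + ev i) - ee b ((mon 2 5 c).1 + ev i) := by
  classical
  have hne : b ≠ c := hbc.ne
  have s1 : ({c} : Finset (Fin (h0 2 5))) ≠ {b} := fun h => hne (Finset.singleton_injective h).symm
  funext G
  rw [kosz_apply]
  change _ = (if G = {c} then (monomial ((mon 2 5 b).1 + ev i) (1 : ℂ) : Poly 2) else 0) -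
    (if G = {b} then (monomial ((mon 2 5 c).1 + ev i) (1 : ℂ) : Poly 2) else 0)
  have key : ∀ x, x ∉ G → insert x G = {b, c} → (x = b ∧ G = {c}) ∨ (x = c ∧ G = {b}) := by
    intro x hx h
    have hxm : x ∈ ({b, c} : Finset (Fin (h0 2 5))) := h ▸ Finset.mem_insert_self x G
    have hG : G = ({b, c} : Finset (Fin (h0 2 5))).erase x := by rw [← h, Finset.erase_insert hx]
    rw [Finset.mem_insert, Finset.mem_singleton] at hxm
    rcases hxm with hx' | hx'
    · left
      rw [hx'] at hG
      exact ⟨hx', by rw [hG, Finset.erase_insert (by simpa using hne)]⟩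
    · right
      rw [hx', Finset.pair_comm] at hG
      exact ⟨hx', by rw [hG, Finset.erase_insert (by simpa using hne.symm)]⟩
  by_cases h1 : G = {c}
  · subst h1
    rw [if_pos rfl, if_neg s1, sub_zero, Finset.sum_eq_single b]
    · have hf : ({c} : Finset (Fin (h0 2 5))).filter (fun y => y < b) = ∅ := by
        rw [Finset.filter_singleton, if_neg (not_lt.2 hbc.le)]
      rw [hf, Finset.card_empty, pow_zero, one_mul, gg, if_pos rfl, bas, monomial_mul, one_mul]
    · intro x hx hxb
      rw [gg, if_neg, mul_zero]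
      intro h
      rcases key x (Finset.mem_compl.1 hx) h with ⟨h', _⟩ | ⟨_, h''⟩
      · exact hxb h'
      · exact s1 h''
    · intro h
      exact absurd (Finset.mem_compl.2 (by simpa using hne)) h
  · by_cases h2 : G = {b}
    · subst h2
      rw [if_neg s1.symm, if_pos rfl, zero_sub, Finset.sum_eq_single c]
      · have hf : ({b} : Finset (Fin (h0 2 5))).filter (fun y => y < c) = {b} := by
          rw [Finset.filter_singleton, if_pos hbc]
        rw [hf, Finset.card_singleton, pow_one, gg, if_pos (Finset.pair_comm c b), bas, mul_assoc,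
          monomial_mul, one_mul, neg_one_mul]
      · intro x hx hxb
        rw [gg, if_neg, mul_zero]
        intro h
        rcases key x (Finset.mem_compl.1 hx) h with ⟨_, h''⟩ | ⟨h', _⟩
        · exact s1 h''.symm
        · exact hxb h'
      · intro h
        exact absurd (Finset.mem_compl.2 (by simpa using hne.symm)) h
    · rw [if_neg h1, if_neg h2, sub_zero]
      refine Finset.sum_eq_zero fun x hx => ?_
      rw [gg, if_neg, mul_zero]
      intro h
      rcases key x (Finset.mem_compl.1 hx) h with ⟨_, h''⟩ | ⟨_, h''⟩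
      · exact h1 h''
      · exact h2 h''

theorem rel (b c : Fin (h0 2 5)) (i : Fin 3) :
    ee c ((mon 2 5 b).1 + ev i) - ee b ((mon 2 5 c).1 + ev i) ∈ bdT 2 5 1 1 1 := by
  rcases lt_trichotomy b c with h | h | h
  · exact ⟨gg b c i, gg_mem h.ne i, kosz_gg h i⟩
  · subst h
    rw [sub_self]
    exact Submodule.zero_mem _
  · have h1 : ee b ((mon 2 5 c).1 + ev i) - ee c ((mon 2 5 b).1 + ev i) ∈ bdT 2 5 1 1 1 :=
      ⟨gg c b i, gg_mem h.ne i, kosz_gg h i⟩
    have h2 := Submodule.neg_mem _ h1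
    rwa [neg_sub] at h2

/-- the index of a monomial -/
noncomputable def ix (u : Fin 3 →₀ ℕ) (h : ∑ a, u a = 5) : Fin (h0 2 5) := (mon 2 5).symm ⟨u, h⟩

theorem mon_ix (u : Fin 3 →₀ ℕ) (h : ∑ a, u a = 5) : (mon 2 5 (ix u h)).1 = u := by
  rw [ix, Equiv.apply_symm_apply]

theorem exch (b : Fin (h0 2 5)) (u : Fin 3 →₀ ℕ) (hu : ∑ a, u a = 6) (i j : Fin 3) (hi : ev i ≤ u)
    (hj : ev j ≤ (mon 2 5 b).1) (b' : Fin (h0 2 5))
    (hb' : (mon 2 5 b').1 = (mon 2 5 b).1 - ev j + ev i) :
    ee b u - ee b' (u - ev i + ev j) ∈ bdT 2 5 1 1 1 := by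
  have hs : ∑ a, (u - ev i) a = 5 := by
    have h1 : u = (u - ev i) + ev i := (tsub_add_cancel_of_le hi).symm
    have h2 : ∑ a, u a = ∑ a, (u - ev i) a + ∑ a, ev i a := by
      rw [← Finset.sum_add_distrib]
      exact Finset.sum_congr rfl fun a _ => congrFun (congrArg DFunLike.coe h1) a
    have h3 : ∑ a, ev i a = 1 := by
      rw [Fin.sum_univ_three, ev_apply, ev_apply, ev_apply]
      fin_cases i <;> rfl
    omega
  set c := ix (u - ev i) hs with hc
  have hcm : (mon 2 5 c).1 = u - ev i := mon_ix _ hs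
  have r1 := rel c b i
  rw [hcm, tsub_add_cancel_of_le hi] at r1
  have r2 := rel b' c j
  rw [hcm] at r2
  have e : (mon 2 5 b').1 + ev j = (mon 2 5 b).1 + ev i := by
    rw [hb', add_right_comm, tsub_add_cancel_of_le hj]
  rw [e] at r2
  have r3 := Submodule.add_mem _ r1 r2
  rwa [sub_add_sub_cancel] at r3

theorem ev_le {i : Fin 3} {u : Fin 3 →₀ ℕ} (h : 1 ≤ u i) : ev i ≤ u := by
  intro a
  rw [ev_apply]
  split_ifs with h'
  · rw [← h']
    exact h
  · exact Nat.zero_le _

theorem fin3 (i : Fin 3) : i = 0 ∨ i = 1 ∨ i = 2 := by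
  fin_cases i <;> simp

theorem conn (N : ℕ) : ∀ (b b' : Fin (h0 2 5)) (u u' : Fin 3 →₀ ℕ), ∑ a, u a = 6 →
    (mon 2 5 b).1 + u = (mon 2 5 b').1 + u' → ∑ a, ((mon 2 5 b).1 a - (mon 2 5 b').1 a) = N →
    ee b u - ee b' u' ∈ bdT 2 5 1 1 1 := by
  induction N with
  | zero =>
    intro b b' u u' _ he hN
    have s1 : ∑ a, (mon 2 5 b).1 a = 5 := (mon 2 5 b).2
    have s2 : ∑ a, (mon 2 5 b').1 a = 5 := (mon 2 5 b').2
    have h1 : (mon 2 5 b).1 = (mon 2 5 b').1 := by
      rw [Fin.sum_univ_three] at hN s1 s2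
      ext a
      fin_cases a
      · change (mon 2 5 b).1 0 = (mon 2 5 b').1 0
        omega
      · change (mon 2 5 b).1 1 = (mon 2 5 b').1 1
        omega
      · change (mon 2 5 b).1 2 = (mon 2 5 b').1 2
        omega
    have h2 : b = b' := (mon 2 5).injective (Subtype.ext h1)
    subst h2
    rw [add_left_cancel he, sub_self]
    exact Submodule.zero_mem _
  | succ N ih =>
    intro b b' u u' hu he hN
    have s1 : ∑ a, (mon 2 5 b).1 a = 5 := (mon 2 5 b).2
    have s2 : ∑ a, (mon 2 5 b').1 a = 5 := (mon 2 5 b').2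
    have e0 : (mon 2 5 b).1 0 + u 0 = (mon 2 5 b').1 0 + u' 0 := congrArg (fun v => v 0) he
    have e1 : (mon 2 5 b).1 1 + u 1 = (mon 2 5 b').1 1 + u' 1 := congrArg (fun v => v 1) he
    have e2 : (mon 2 5 b).1 2 + u 2 = (mon 2 5 b').1 2 + u' 2 := congrArg (fun v => v 2) he
    obtain ⟨j, hj⟩ : ∃ j, (mon 2 5 b').1 j < (mon 2 5 b).1 j := by
      by_contra hc
      push Not at hc
      have : ∑ a, ((mon 2 5 b).1 a - (mon 2 5 b').1 a) = 0 :=
        Finset.sum_eq_zero fun a _ => Nat.sub_eq_zero_of_le (hc a)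
      omega
    obtain ⟨i, hi⟩ : ∃ i, (mon 2 5 b).1 i < (mon 2 5 b').1 i := by
      by_contra hc
      push Not at hc
      have : ∑ a, (mon 2 5 b').1 a < ∑ a, (mon 2 5 b).1 a :=
        Finset.sum_lt_sum (fun a _ => hc a) ⟨j, Finset.mem_univ _, hj⟩
      omega
    have hij : i ≠ j := by
      rintro rfl
      omega
    have hui : 1 ≤ u i := by
      have : (mon 2 5 b).1 i + u i = (mon 2 5 b').1 i + u' i := congrArg (fun v => v i) he
      omega
    have hmj : 1 ≤ (mon 2 5 b).1 j := by omega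
    have c1 : ∀ a, ((mon 2 5 b).1 - ev j + ev i) a = ((mon 2 5 b).1 a - (if j = a then 1 else 0)) +
        (if i = a then 1 else 0) := fun a => by
      change ((mon 2 5 b).1 a - ev j a) + ev i a = _
      rw [ev_apply, ev_apply]
    have c2 : ∀ a, (u - ev i + ev j) a = (u a - (if i = a then 1 else 0)) +
        (if j = a then 1 else 0) := fun a => by
      change (u a - ev i a) + ev j a = _
      rw [ev_apply, ev_apply]
    have hi3 := fin3 i
    have hj3 := fin3 j
    have hs : ∑ a, ((mon 2 5 b).1 - ev j + ev i) a = 5 := by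
      rw [Fin.sum_univ_three] at s1 ⊢
      rw [c1, c1, c1]
      clear c1 c2
      rcases hi3 with rfl | rfl | rfl <;> rcases hj3 with rfl | rfl | rfl <;>
        simp only [Fin.reduceEq, Fin.isValue, reduceIte] <;> omega
    have ex := exch b u hu i j (ev_le hui) (ev_le hmj) (ix _ hs) (mon_ix _ hs)
    have hi2 := ih (ix _ hs) b' (u - ev i + ev j) u' ?_ ?_ ?_
    · have := Submodule.add_mem _ ex hi2
      rwa [sub_add_sub_cancel] at this
    · rw [Fin.sum_univ_three] at hu ⊢
      rw [c2, c2, c2]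
      clear c1 c2 ex
      rcases hi3 with rfl | rfl | rfl <;> rcases hj3 with rfl | rfl | rfl <;>
        simp only [Fin.reduceEq, Fin.isValue, reduceIte] <;> omega
    · rw [mon_ix, ← he]
      have h1 := tsub_add_cancel_of_le (ev_le hui)
      have h2 := tsub_add_cancel_of_le (ev_le hmj)
      calc (mon 2 5 b).1 - ev j + ev i + (u - ev i + ev j)
          = ((mon 2 5 b).1 - ev j + ev j) + ((u - ev i) + ev i) :=
            (add_add_add_comm _ _ _ _).trans ((congrArg _ (add_comm _ _)).trans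
              (add_add_add_comm _ _ _ _))
        _ = _ := by rw [h1, h2]
    · rw [mon_ix]
      rw [Fin.sum_univ_three] at hN ⊢
      rw [c1, c1, c1]
      clear c1 c2 ex
      rcases hi3 with rfl | rfl | rfl <;> rcases hj3 with rfl | rfl | rfl <;>
        simp only [Fin.reduceEq, Fin.isValue, reduceIte] <;> omega

theorem rel_all (b b' : Fin (h0 2 5)) (u u' : Fin 3 →₀ ℕ) (hu : ∑ a, u a = 6)
    (he : (mon 2 5 b).1 + u = (mon 2 5 b').1 + u') : ee b u - ee b' u' ∈ bdT 2 5 1 1 1 :=
  conn _ b b' u u' hu he rfl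

open Classical in
/-- a representative -/
noncomputable def rep (w : Mon 2 11) : Finset (Fin (h0 2 5)) → Poly 2 :=
  if h : ∃ q : Fin (h0 2 5) × (Fin 3 →₀ ℕ), (∑ a, q.2 a = 6) ∧ (mon 2 5 q.1).1 + q.2 = w.1 then
    ee h.choose.1 h.choose.2 else 0

theorem chT_le : chT 2 5 1 1 1 ≤ bdT 2 5 1 1 1 ⊔ Submodule.span ℂ (Set.range rep) := by
  classical
  intro f hf
  have hsum : f = ∑ b, ∑ u ∈ (f {b}).support, coeff u (f {b}) • ee b u := by
    funext F
    rw [Finset.sum_apply]
    have hterm : ∀ b, (∑ u ∈ (f {b}).support, coeff u (f {b}) • ee b u) F =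
        if F = {b} then f {b} else 0 := by
      intro b
      rw [Finset.sum_apply]
      by_cases h : F = {b}
      · rw [if_pos h]
        conv_rhs => rw [← (f {b}).support_sum_monomial_coeff]
        refine Finset.sum_congr rfl fun u _ => ?_
        rw [Pi.smul_apply, ee, if_pos h, smul_monomial, smul_eq_mul, mul_one]
      · rw [if_neg h]
        refine Finset.sum_eq_zero fun u _ => ?_
        rw [Pi.smul_apply, ee, if_neg h, smul_zero]
    rw [Finset.sum_congr rfl fun b _ => hterm b]
    by_cases hF : F.card = 1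
    · obtain ⟨b, rfl⟩ := Finset.card_eq_one.1 hF
      rw [Finset.sum_eq_single b]
      · rw [if_pos rfl]
      · intro c _ hcb
        rw [if_neg]
        intro h
        exact hcb (Finset.singleton_injective h).symm
      · intro h
        exact absurd (Finset.mem_univ b) h
    · rw [hf.2 F hF, Finset.sum_eq_zero]
      intro b _
      rw [if_neg]
      rintro rfl
      exact hF (Finset.card_singleton b)
  rw [hsum]
  refine Submodule.sum_mem _ fun b _ => Submodule.sum_mem _ fun u hu => Submodule.smul_mem _ _ ?_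
  have hu6 : ∑ a, u a = 6 := by
    have h1 := hf.1 {b} u (mem_support_iff.1 hu)
    have h2 : (∑ a, (u a : ℤ)) = ((6 : ℕ) : ℤ) := by
      rw [h1]
      norm_num
    exact_mod_cast h2
  have hw : ∑ a, ((mon 2 5 b).1 + u) a = 11 := by
    have h1 : ∑ a, (mon 2 5 b).1 a = 5 := (mon 2 5 b).2
    have h2 : ∑ a, ((mon 2 5 b).1 + u) a = ∑ a, (mon 2 5 b).1 a + ∑ a, u a := by
      rw [← Finset.sum_add_distrib]
      rfl
    omega
  have hex : ∃ q : Fin (h0 2 5) × (Fin 3 →₀ ℕ), (∑ a, q.2 a = 6) ∧
      (mon 2 5 q.1).1 + q.2 = (⟨(mon 2 5 b).1 + u, hw⟩ : Mon 2 11).1 := ⟨(b, u), hu6, rfl⟩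
  have hr : rep ⟨(mon 2 5 b).1 + u, hw⟩ = ee hex.choose.1 hex.choose.2 := by
    rw [rep, dif_pos hex]
  have h3 := rel_all b hex.choose.1 u hex.choose.2 hu6 hex.choose_spec.2.symm
  rw [← hr] at h3
  have h4 : ee b u = (ee b u - rep ⟨(mon 2 5 b).1 + u, hw⟩) + rep ⟨(mon 2 5 b).1 + u, hw⟩ :=
    (sub_add_cancel _ _).symm
  rw [h4]
  exact Submodule.add_mem_sup h3 (Submodule.subset_span ⟨_, rfl⟩)

theorem bdT_ge : finrank ℂ (chT 2 5 1 1 1) ≤ finrank ℂ (bdT 2 5 1 1 1) + h0 2 11 := by
  classical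
  have : Fintype (Mon 2 11) := Fintype.ofFinite _
  have hfb : FiniteDimensional ℂ (bdT 2 5 1 1 1) := by
    have := cyT_finite 2 5 1 1 1
    exact Submodule.finiteDimensional_of_le (bdT_le_cyT 2 5 1 1 1)
  have hfs : FiniteDimensional ℂ (Submodule.span ℂ (Set.range rep)) :=
    FiniteDimensional.span_of_finite ℂ (Set.finite_range rep)
  have h1 := Submodule.finrank_mono chT_le
  have h2 := Submodule.finrank_add_le_finrank_add_finrank (bdT 2 5 1 1 1)
    (Submodule.span ℂ (Set.range rep))
  have h3 : finrank ℂ (Submodule.span ℂ (Set.range rep)) ≤ h0 2 11 := by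
    have := finrank_range_le_card (R := ℂ) rep
    rw [← Nat.card_eq_fintype_card] at this
    exact this
  omega

/-- surjectivity of `V_5 ⊗ H⁰(𝒪(1)) → H⁰(𝒪(6))` -/
theorem chT_zero_le : chT 2 5 1 0 1 ≤ bdT 2 5 1 0 1 := by
  classical
  intro f hf
  have hsum : f = ∑ u ∈ (f ∅).support, coeff u (f ∅) •
      (fun F : Finset (Fin (h0 2 5)) => if F = ∅ then (monomial u (1 : ℂ) : Poly 2) else 0) := by
    funext F
    rw [Finset.sum_apply]
    by_cases hF : F = ∅
    · rw [hF]
      conv_lhs => rw [← (f ∅).support_sum_monomial_coeff]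
      refine Finset.sum_congr rfl fun u _ => ?_
      rw [Pi.smul_apply, if_pos rfl, smul_monomial, smul_eq_mul, mul_one]
    · rw [hf.2 F (fun h => hF (Finset.card_eq_zero.1 h)), Finset.sum_eq_zero]
      intro u _
      rw [Pi.smul_apply, if_neg hF, smul_zero]
  rw [hsum]
  refine Submodule.sum_mem _ fun u hu => Submodule.smul_mem _ _ ?_
  have hu6 : ∑ a, u a = 6 := by
    have h1 := hf.1 ∅ u (mem_support_iff.1 hu)
    have h2 : (∑ a, (u a : ℤ)) = ((6 : ℕ) : ℤ) := by
      rw [h1]
      norm_num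
    exact_mod_cast h2
  obtain ⟨i, hi⟩ : ∃ i, 1 ≤ u i := by
    by_contra hc
    push Not at hc
    have : ∑ a, u a = 0 := Finset.sum_eq_zero fun a _ => by
      have := hc a
      omega
    omega
  have hs : ∑ a, (u - ev i) a = 5 := by
    have c2 : ∀ a, (u - ev i) a = u a - (if i = a then 1 else 0) := fun a => by
      change u a - ev i a = _
      rw [ev_apply]
    rw [Fin.sum_univ_three] at hu6 ⊢
    rw [c2, c2, c2]
    clear c2
    rcases fin3 i with rfl | rfl | rfl <;>
      simp only [Fin.reduceEq, Fin.isValue, reduceIte] <;> omega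
  refine ⟨fun F => if F = {ix (u - ev i) hs} then (monomial (ev i) (1 : ℂ) : Poly 2) else 0,
    ⟨?_, ?_⟩, ?_⟩
  · intro F
    beta_reduce
    split_ifs
    · intro v hv
      rw [coeff_monomial] at hv
      by_cases h : ev i = v
      · subst h
        have : (∑ a, (ev i a : ℤ)) = 1 := by
          rw [Fin.sum_univ_three, ev_apply, ev_apply, ev_apply]
          fin_cases i <;> rfl
        rw [this]
        norm_num
      · rw [if_neg h] at hv
        exact absurd rfl hv
    · exact Submodule.zero_mem _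
  · intro F hF
    beta_reduce
    rw [if_neg]
    rintro rfl
    exact hF (Finset.card_singleton _)
  · funext G
    rw [kosz_apply]
    by_cases hG : G = ∅
    · subst hG
      rw [if_pos rfl, Finset.sum_eq_single (ix (u - ev i) hs)]
      · rw [Finset.filter_empty, Finset.card_empty, pow_zero, one_mul, if_pos (by simp), bas,
          monomial_mul, one_mul, mon_ix, tsub_add_cancel_of_le (ev_le hi)]
      · intro x _ hx
        rw [if_neg, mul_zero]
        intro h
        exact hx (Finset.singleton_injective h)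
      · intro h
        exact absurd (by simp) h
    · rw [if_neg hG]
      refine Finset.sum_eq_zero fun x hx => ?_
      rw [if_neg, mul_zero]
      intro h
      have h1 : (insert x G).card = 1 := by rw [h, Finset.card_singleton]
      rw [Finset.card_insert_of_notMem (Finset.mem_compl.1 hx)] at h1
      exact hG (Finset.card_eq_zero.1 (by omega))

end Pool.Agent.N92.BT
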