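import Pool.Agent.N92.BT.K0

/-! # The recursion for the dimensions of the spaces of cycles -/

set_option autoImplicit false

namespace Pool.Agent.N92.BT

open MvPolynomial Finset Module
open Pool.Agent.W474.Ver (Poly Sec Mon h0 mon bas kosz kosz_apply coeff_kosz mem_Sec M0 kosz_card
  kosz_kosz Sec_finite)

variable {n d : ℕ}

/-- The differential maps `Λ^{p+1} V_d ⊗ H⁰(m d)` to `Λ^p V_d ⊗ H⁰((m+1) d)`. -/
theorem kosz_mem {β : ℤ} {p : ℕ} {m : ℤ} {f : Finset (Fin (h0 n d)) → Poly n}
    (hf : f ∈ chT n d β (p + 1) m) : kosz n d f ∈ chT n d β p (m + 1) := by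
  refine ⟨fun F => ?_, fun F hF => kosz_card hf.2 F hF⟩
  by_cases hF : F.card = p
  · have h1 := kosz_Sec (fun F => chains_Sec hf F) F
    rw [hF] at h1
    have e : (((p + 1 : ℕ) : ℤ) + m - p) = m + 1 := by push_cast; ring
    rwa [e] at h1
  · rw [kosz_card hf.2 F hF]
    exact Submodule.zero_mem _

/-- Boundaries are cycles. -/
theorem bdT_le_cyT (n d : ℕ) (β : ℤ) (p : ℕ) (q : ℤ) : bdT n d β p q ≤ cyT n d β p q := by
  rintro _ ⟨f, hf, rfl⟩
  refine ⟨?_, LinearMap.mem_ker.mpr (kosz_kosz f)⟩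
  have h1 := kosz_mem hf
  rwa [sub_add_cancel] at h1

/-- `Λ^p V_d ⊗ H⁰(ℙⁿ, 𝒪(m d))` is finite-dimensional. -/
theorem chT_finite (n d : ℕ) (β : ℤ) (p : ℕ) (m : ℤ) : FiniteDimensional ℂ (chT n d β p m) := by
  have := Sec_finite n (m * d + β)
  let Φ : chT n d β p m →ₗ[ℂ] (Finset (Fin (h0 n d)) → Sec n (m * d + β)) :=
    { toFun := fun f B => ⟨f.1 B, f.2.1 B⟩
      map_add' := fun _ _ => rfl
      map_smul' := fun _ _ => rfl }
  refine FiniteDimensional.of_injective Φ ?_
  intro f g h
  apply Subtype.ext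
  funext B
  exact congrArg Subtype.val (congrFun h B)

/-- The space of cycles, hence also `K_{p,q}`, is finite-dimensional. -/
theorem cyT_finite (n d : ℕ) (β : ℤ) (p : ℕ) (q : ℤ) : FiniteDimensional ℂ (cyT n d β p q) := by
  have := chT_finite n d β p q
  exact Submodule.finiteDimensional_of_le inf_le_left

theorem finrank_chT (n d : ℕ) (β : ℤ) (p : ℕ) (m : ℤ) :
    finrank ℂ (chT n d β p m) = (h0 n d).choose p * finrank ℂ (Sec n (m * d + β)) := by
  classical
  have := Sec_finite n (m * d + β)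
  let Φ : chT n d β p m →ₗ[ℂ] ({F : Finset (Fin (h0 n d)) // F.card = p} → Sec n (m * d + β)) :=
    { toFun := fun f F => ⟨f.1 F.1, f.2.1 F.1⟩
      map_add' := fun f g => rfl
      map_smul' := fun c f => rfl }
  have hinj : Function.Injective Φ := by
    intro f g h
    apply Subtype.ext
    funext F
    by_cases hF : F.card = p
    · exact congrArg Subtype.val (congrFun h ⟨F, hF⟩)
    · rw [f.2.2 F hF, g.2.2 F hF]
  have hsurj : Function.Surjective Φ := by
    intro g
    refine ⟨⟨fun F => if h : F.card = p then (g ⟨F, h⟩).1 else 0, ?_, ?_⟩, ?_⟩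
    · intro F
      beta_reduce
      by_cases h : F.card = p
      · rw [dif_pos h]
        exact (g ⟨F, h⟩).2
      · rw [dif_neg h]
        exact Submodule.zero_mem _
    · intro F hF
      exact dif_neg hF
    · funext F
      apply Subtype.ext
      change (if h : F.1.card = p then (g ⟨F.1, h⟩).1 else 0) = (g F).1
      rw [dif_pos F.2]
  rw [(LinearEquiv.ofBijective Φ ⟨hinj, hsurj⟩).finrank_eq, Module.finrank_pi_fintype,
    Finset.sum_const, Finset.card_univ, Fintype.card_finset_len, Fintype.card_fin, smul_eq_mul]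

theorem rank_nullity (n d : ℕ) (β : ℤ) (p : ℕ) (m : ℤ) :
    finrank ℂ (bdT n d β p (m + 1)) + finrank ℂ (cyT n d β (p + 1) m) =
      finrank ℂ (chT n d β (p + 1) m) := by
  have := chT_finite n d β (p + 1) m
  have h := LinearMap.finrank_range_add_finrank_ker ((kosz n d).domRestrict (chT n d β (p + 1) m))
  rw [LinearMap.range_domRestrict, LinearMap.ker_domRestrict] at h
  have e1 : bdT n d β p (m + 1) = (chT n d β (p + 1) m).map (kosz n d) := by
    rw [bdT, add_sub_cancel_right]
  have e2 : finrank ℂ ((LinearMap.ker (kosz n d)).submoduleOf (chT n d β (p + 1) m)) =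
      finrank ℂ (cyT n d β (p + 1) m) := by
    rw [← Submodule.finrank_map_subtype_eq, Submodule.submoduleOf, Submodule.map_comap_subtype]
    rfl
  rw [← e2, e1]
  exact h

theorem kpq_add (n d : ℕ) (β : ℤ) (p : ℕ) (q : ℤ) :
    kT n d β p q + finrank ℂ (bdT n d β p q) = finrank ℂ (cyT n d β p q) := by
  have := cyT_finite n d β p q
  have h := Submodule.finrank_quotient_add_finrank ((bdT n d β p q).submoduleOf (cyT n d β p q))
  have e2 : finrank ℂ ((bdT n d β p q).submoduleOf (cyT n d β p q)) = finrank ℂ (bdT n d β p q) := by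
    rw [← Submodule.finrank_map_subtype_eq, Submodule.submoduleOf, Submodule.map_comap_subtype,
      inf_eq_right.2 (bdT_le_cyT n d β p q)]
  rw [e2] at h
  exact h

theorem cyc_zero (n d : ℕ) (β : ℤ) (q : ℤ) : cyT n d β 0 q = chT n d β 0 q := by
  refine le_antisymm inf_le_left fun f hf => ⟨hf, ?_⟩
  rw [SetLike.mem_coe, LinearMap.mem_ker]
  funext G
  change ∑ b ∈ Gᶜ, (-1) ^ (G.filter (fun c => c < b)).card * bas n d b * f (insert b G) = 0
  refine Finset.sum_eq_zero fun b hb => ?_
  rw [hf.2 _ (by rw [Finset.card_insert_of_notMem (Finset.mem_compl.1 hb)]; omega), mul_zero]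

/-- the recursion for the dimensions of the spaces of cycles -/
theorem cyc_succ (n d : ℕ) (β : ℤ) (p : ℕ) (m : ℤ) :
    (finrank ℂ (cyT n d β (p + 1) m) : ℤ) = (h0 n d).choose (p + 1) * finrank ℂ (Sec n (m * d + β)) -
      finrank ℂ (cyT n d β p (m + 1)) + kT n d β p (m + 1) := by
  have h1 := rank_nullity n d β p m
  have h2 := kpq_add n d β p (m + 1)
  rw [finrank_chT] at h1
  have h1' : (finrank ℂ (bdT n d β p (m + 1)) : ℤ) + finrank ℂ (cyT n d β (p + 1) m) =
      (h0 n d).choose (p + 1) * finrank ℂ (Sec n (m * d + β)) := by exact_mod_cast h1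
  have h2' : (kT n d β p (m + 1) : ℤ) + finrank ℂ (bdT n d β p (m + 1)) =
      finrank ℂ (cyT n d β p (m + 1)) := by exact_mod_cast h2
  linarith

end Pool.Agent.N92.BT
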