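import Pool.Agent.N92.BT.K11
import Pool.Agent.N92.BS.Kpq
import Pool.Agent.N92.BS.Ex

/-! # The Betti table for `b = 1`, `d = 5` -/

set_option autoImplicit false

namespace Pool.Agent.N92.BT

open MvPolynomial Finset Module
open Pool.Agent.W474.Ver (Poly Sec Mon h0 mon bas kosz kosz_apply coeff_kosz mem_Sec M0 kosz_card
  kosz_kosz Sec_finite Lat exd)
open Pool.Agent.H940R2 (CC ZZ BB HH DK dg)
open Pool.Agent.N92.BS (h0_choose finrank_Sec secM chM dimQ betti)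

theorem h0_25 : h0 2 5 = 21 := by
  rw [h0_choose]
  rfl

/-- the homology of the region `Sout` vanishes in a degree without cells -/
theorem hh_zero (p : ℕ) (q : ℤ)
    (h : ∀ x : Finset (Fin (h0 2 5)) × Lat 2, x ∈ Sout (Fin (h0 2 5)) 2 ((5 : ℕ) : ℤ) 1 (p + q) →
      dg x ≠ p + (2 + 1)) : kT 2 5 1 p q = 0 := by
  rw [kT_eq]
  have hz : ∀ f : ZZ dg (DK ℂ (exd 2 5)) (Sout (Fin (h0 2 5)) 2 ((5 : ℕ) : ℤ) 1 (p + q))
      (p + (2 + 1)), f = 0 := by
    rintro ⟨f, hf⟩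
    apply Subtype.ext
    funext x
    by_contra hx
    obtain ⟨h1, h2⟩ := hf.1 x hx
    exact h x h1 h2
  have : Subsingleton (ZZ dg (DK ℂ (exd 2 5)) (Sout (Fin (h0 2 5)) 2 ((5 : ℕ) : ℤ) 1 (p + q))
      (p + (2 + 1))) := ⟨fun a b => by rw [hz a, hz b]⟩
  exact Module.finrank_zero_of_subsingleton

theorem kT_ge (p : ℕ) (q : ℤ) (hq : 3 ≤ q) : kT 2 5 1 p q = 0 := by
  apply hh_zero
  rintro ⟨F, u⟩ ⟨h1, h2⟩ h3
  simp only [Base, Set.mem_ofPred_eq] at h1 h2
  have h4 : F.card = p + (2 + 1) := h3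
  rw [h4, Fin.sum_univ_three] at h1
  have a0 := h2 0
  have a1 := h2 1
  have a2 := h2 2
  push_cast at h1
  omega

theorem kT_large (p : ℕ) (q : ℤ) (hp : 19 ≤ p) : kT 2 5 1 p q = 0 := by
  apply hh_zero
  rintro ⟨F, u⟩ _ h3
  have h4 : F.card = p + (2 + 1) := h3
  have h5 := Finset.card_le_univ F
  have h6 := h0_25
  simp only [Fintype.card_fin] at h5
  omega

/-- the dimension of `K_{p,0}` -/
noncomputable def k0 (p : ℕ) : ℕ := finrank ℂ (cyT 2 5 1 p 0)

theorem k0_big {p : ℕ} (hp : 3 ≤ p) : k0 p = 0 := by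
  rw [k0, cy0_bot hp, finrank_bot]

theorem kT_two {p p' : ℕ} (h : p + p' = 18) : kT 2 5 1 p 2 = k0 p' := by
  have h1 := kT_eq_KK (n := 2) (d := 5) (β := 1) (D := 4) (p := p) (p' := p') (by norm_num)
    (by norm_num) (by rw [h0_25]; omega)
  have h2 : kT 2 5 1 p 2 = finrank ℂ (KK 2 5 4 p') := h1
  rw [h2, KK_eq, k0]

/-- the numbers given by the recursion -/
def W : ℕ → ℕ → ℤ
  | 0, m => (5 * m + 1 + 2).choose 2
  | p + 1, m => Nat.choose 21 (p + 1) * (5 * m + 1 + 2).choose 2 - W p (m + 1)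

theorem finrank_Sec5 (m : ℕ) :
    finrank ℂ (Sec 2 ((m : ℤ) * (5 : ℕ) + 1)) = (5 * m + 1 + 2).choose 2 := by
  have h : ((m : ℤ) * (5 : ℕ) + 1) = ((5 * m + 1 : ℕ) : ℤ) := by
    push_cast
    ring
  rw [h, finrank_Sec]

theorem cyc_succ' (p : ℕ) (m : ℤ) :
    (finrank ℂ (cyT 2 5 1 (p + 1) m) : ℤ) = Nat.choose 21 (p + 1) *
      finrank ℂ (Sec 2 (m * (5 : ℕ) + 1)) - finrank ℂ (cyT 2 5 1 p (m + 1)) +
      kT 2 5 1 p (m + 1) := by
  have h := cyc_succ 2 5 1 p m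
  have e : (h0 2 5).choose (p + 1) = Nat.choose 21 (p + 1) :=
    congrArg (fun k => Nat.choose k (p + 1)) h0_25
  rw [e] at h
  exact h

theorem cyc_W (p : ℕ) : ∀ m : ℕ, 2 ≤ m → (finrank ℂ (cyT 2 5 1 p (m : ℤ)) : ℤ) = W p m := by
  induction p with
  | zero =>
    intro m _
    rw [cyc_zero, finrank_chT, finrank_Sec5, Nat.choose_zero_right, one_mul, W]
  | succ p ih =>
    intro m hm
    have h1 := ih (m + 1) (by omega)
    push_cast at h1
    rw [cyc_succ', kT_ge p _ (by omega), finrank_Sec5, h1, W]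
    push_cast
    ring

theorem cyc_one_zero : (finrank ℂ (cyT 2 5 1 0 1) : ℤ) = 28 := by
  have h := finrank_Sec5 1
  rw [Nat.cast_one] at h
  rw [cyc_zero, finrank_chT, h, Nat.choose_zero_right, one_mul]
  rfl

theorem cyc_one_succ (p : ℕ) : (finrank ℂ (cyT 2 5 1 (p + 1) 1) : ℤ) =
    Nat.choose 21 (p + 1) * 28 - W p 2 + kT 2 5 1 p 2 := by
  have h1 := cyc_W p 2 le_rfl
  have h := finrank_Sec5 1
  rw [Nat.cast_one] at h
  rw [cyc_succ', h]
  have h3 : (finrank ℂ (cyT 2 5 1 p (1 + 1)) : ℤ) = W p 2 := h1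
  rw [h3]
  rfl

theorem cyc_zero_succ (p : ℕ) : (k0 (p + 1) : ℤ) =
    Nat.choose 21 (p + 1) * 3 - finrank ℂ (cyT 2 5 1 p 1) + kT 2 5 1 p 1 := by
  have h := finrank_Sec5 0
  rw [Nat.cast_zero] at h
  rw [k0, cyc_succ', h, zero_add]
  rfl

theorem k0_zero : k0 0 = 3 := by
  have h := finrank_Sec5 0
  rw [Nat.cast_zero] at h
  rw [k0, cyc_zero, finrank_chT, h, Nat.choose_zero_right, one_mul]
  rfl

theorem kT_01 : kT 2 5 1 0 1 = 0 := by
  have h1 := kpq_add 2 5 1 0 1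
  have hfb : FiniteDimensional ℂ (bdT 2 5 1 0 1) := by
    have := cyT_finite 2 5 1 0 1
    exact Submodule.finiteDimensional_of_le (bdT_le_cyT 2 5 1 0 1)
  have h2 := Submodule.finrank_mono chT_zero_le
  rw [cyc_zero] at h1
  omega

theorem k0_one : k0 1 = 35 := by
  have h := cyc_zero_succ 0
  rw [kT_01, cyc_one_zero] at h
  norm_num at h
  exact_mod_cast h

theorem k0_18 : kT 2 5 1 0 2 = 0 := by
  rw [kT_two (p := 0) (p' := 18) rfl, k0_big (by norm_num)]

theorem cyc_one_one : (finrank ℂ (cyT 2 5 1 1 1) : ℤ) = 510 := by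
  have h := cyc_one_succ 0
  rw [k0_18] at h
  have hW : W 0 2 = 78 := by decide
  rw [hW] at h
  norm_num at h
  exact_mod_cast h

theorem kT_11 : kT 2 5 1 1 1 = 0 := by
  have h1 := kpq_add 2 5 1 1 1
  have h2 := bdT_ge
  have h3 : finrank ℂ (chT 2 5 1 1 1) = 588 := by
    have h := finrank_Sec5 1
    rw [Nat.cast_one] at h
    rw [finrank_chT, h, h0_25]
    rfl
  have h4 : h0 2 11 = 78 := by
    rw [h0_choose]
    rfl
  have h5 : finrank ℂ (cyT 2 5 1 1 1) = 510 := by exact_mod_cast cyc_one_one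
  omega

theorem k0_two : k0 2 = 120 := by
  have h := cyc_zero_succ 1
  have h2 : (Nat.choose 21 (1 + 1) : ℤ) = 210 := by norm_num [Nat.choose]
  rw [kT_11, cyc_one_one, h2] at h
  norm_num at h
  exact_mod_cast h

/-- the first row -/
def r0 (p : ℕ) : ℕ := [3, 35, 120].getD p 0

theorem k0_eq (p : ℕ) : k0 p = r0 p := by
  rcases Nat.lt_or_ge p 3 with h | h
  · interval_cases p
    · exact k0_zero
    · exact k0_one
    · exact k0_two
  · rw [k0_big h, r0, List.getD_eq_default _ _ (by simpa using h)]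

/-- the third row -/
def r2 (p : ℕ) : ℕ := if p ≤ 18 then r0 (18 - p) else 0

theorem kT_2 (p : ℕ) : kT 2 5 1 p 2 = r2 p := by
  rw [r2]
  split_ifs with h
  · rw [kT_two (p := p) (p' := 18 - p) (by omega), k0_eq]
  · exact kT_large p 2 (by omega)

/-- the second row -/
def r1 (p : ℕ) : ℕ := [0, 0, 405, 5865, 29988, 97920, 231540, 417690, 590070, 661232, 590070, 417690,
  231540, 97920, 29988, 5865, 405].getD p 0

theorem kT_1 (p : ℕ) : kT 2 5 1 p 1 = r1 p := by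
  rcases Nat.lt_or_ge p 19 with h | h
  · have h1 := cyc_zero_succ p
    rw [k0_eq] at h1
    cases p with
    | zero => exact kT_01
    | succ p =>
      rw [cyc_one_succ, kT_2] at h1
      have h2 : (kT 2 5 1 (p + 1) 1 : ℤ) = r0 (p + 1 + 1) - Nat.choose 21 (p + 1 + 1) * 3 +
          (Nat.choose 21 (p + 1) * 28 - W p 2 + r2 p) := by linarith
      have h3 : (r0 (p + 1 + 1) : ℤ) - Nat.choose 21 (p + 1 + 1) * 3 +
          (Nat.choose 21 (p + 1) * 28 - W p 2 + r2 p) = r1 (p + 1) := by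
        have hp : p < 18 := by omega
        clear h1 h2 h
        interval_cases p <;> decide
      rw [h3] at h2
      exact_mod_cast h2
  · rw [kT_large p 1 h, r1, List.getD_eq_default _ _ (by simp; omega)]

end Pool.Agent.N92.BT
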